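import Pool.Agent.Lib.MP_16285c_agN.Hit.Spec

/-!
# COUNT: few integral values of polynomial size
-/

set_option autoImplicit false

noncomputable section

namespace Pool.Agent.Lib.MP_16285c_agN.Hit

open Polynomial

private theorem exists_inj {H : Finset ℕ} {n : ℕ} (h : n < H.card) :
    ∃ s : Fin (n + 1) → ℕ, Function.Injective s ∧ ∀ a, s a ∈ H := by
  obtain ⟨H', hH', hcard⟩ := Finset.exists_subset_card_eq (show n + 1 ≤ H.card by omega)
  exact ⟨fun a => H'.orderEmbOfFin hcard a, (H'.orderEmbOfFin hcard).injective,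
    fun a => hH' (Finset.orderEmbOfFin_mem H' hcard a)⟩

/-- **COUNT.** -/
theorem stmtCount (h1 : StmtKey1) (h2 : StmtKey2) : StmtCount := by
  intro l _ φ A hN C
  by_cases hc : ∃ m, A < m ∧ PowerSeries.coeff m φ ≠ 0
  · obtain ⟨m, hm, hcm⟩ := hc
    refine ⟨m, fun S => ?_⟩
    obtain ⟨k₀, hk⟩ := h1 l φ A m hm hcm C S
    refine ⟨k₀, fun k hk0 H hH => ?_⟩
    by_contra hlt
    obtain ⟨s, hinj, hs⟩ := exists_inj (not_le.1 hlt)
    choose w e h using fun a => (hH (s a) (hs a)).2.2
    exact hk k hk0 s hinj (fun a => ⟨(hH _ (hs a)).1, (hH _ (hs a)).2.1⟩) w e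
      (fun a => (h a).1) (fun a => (h a).2.1) (fun a => (h a).2.2)
  · rcases hN with hN | ⟨m, hm⟩
    · exact absurd hN hc
    · refine ⟨A, fun S => ⟨0, fun k _ H hH => ?_⟩⟩
      by_contra hlt
      obtain ⟨s, hinj, hs⟩ := exists_inj (not_le.1 hlt)
      choose w e h using fun a => (hH (s a) (hs a)).2.2
      have hl : (l : ℤ) ^ k ≠ 0 := pow_ne_zero _ (by
        have := (Fact.out : l.Prime).ne_zero
        exact_mod_cast this)
      obtain ⟨q, hq⟩ := h2 l φ A (fun n hn => by
          by_contra hne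
          exact hc ⟨n, hn, hne⟩) (fun a => (l : ℤ) ^ k * (s a : ℤ))
        (fun a b hab => hinj (by exact_mod_cast mul_left_cancel₀ hl hab)) w e
        (fun a => by
          have := (h a).1
          push_cast
          exact this) (fun a => (h a).2.1) m
      exact hm q hq

end Pool.Agent.Lib.MP_16285c_agN.Hit
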