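import Pool.Agent.Lib.MP_16285c_agN.Hit.Spec

/-!
# Irreducibility goes down (Hilbert's irreducibility theorem, finite extensions)
-/

set_option autoImplicit false

noncomputable section

namespace Pool.Agent.Lib.MP_16285c_agN.Hit

open Polynomial

theorem stmtDown : StmtDown := by
  intro k K _ _ _ _ h f b hh hf hpos hdeg hdvd
  have hf0 : f ≠ 0 := hf.ne_zero
  have hfu : ¬ IsUnit f := by
    intro hu
    have := Polynomial.natDegree_eq_zero_of_isUnit hu
    omega
  obtain ⟨p, hp, q, hq⟩ := WfDvdMonoid.exists_irreducible_factor hfu hf0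
  haveI : Fact (Irreducible p) := ⟨hp⟩
  have hp0 : p ≠ 0 := hp.ne_zero
  have hq0 : q ≠ 0 := by
    rintro rfl
    rw [mul_zero] at hq
    exact hf0 hq
  haveI : FiniteDimensional K (AdjoinRoot p) := (AdjoinRoot.powerBasis hp0).finite
  haveI : FiniteDimensional k (AdjoinRoot p) := FiniteDimensional.trans k K (AdjoinRoot p)
  have hfin : Module.finrank K (AdjoinRoot p) = p.natDegree := by
    rw [(AdjoinRoot.powerBasis hp0).finrank, AdjoinRoot.powerBasis_dim]
  have hfin2 : Module.finrank k K * Module.finrank K (AdjoinRoot p) =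
      Module.finrank k (AdjoinRoot p) := Module.finrank_mul_finrank k K (AdjoinRoot p)
  have hy : aeval (AdjoinRoot.root p) f = 0 := by
    rw [hq, map_mul, AdjoinRoot.aeval_eq, AdjoinRoot.mk_self, zero_mul]
  have hz : aeval (AdjoinRoot.root p + algebraMap K (AdjoinRoot p) b)
      (h.map (algebraMap k K)) = 0 := by
    obtain ⟨r, hr⟩ := hdvd
    rw [hr, map_mul, Polynomial.aeval_comp]
    have h1 : aeval (AdjoinRoot.root p + algebraMap K (AdjoinRoot p) b) (X - C b : Polynomial K) =
        AdjoinRoot.root p := by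
      rw [map_sub, aeval_X, aeval_C, add_sub_cancel_right]
    rw [h1, hy, zero_mul]
  rw [aeval_map_algebraMap] at hz
  have h1 : h.natDegree = (minpoly k (AdjoinRoot.root p + algebraMap K (AdjoinRoot p) b)).natDegree := by
    rw [← minpoly.eq_of_irreducible hh hz]
    rw [natDegree_mul_C (inv_ne_zero (leadingCoeff_ne_zero.2 hh.ne_zero))]
  have h2 := minpoly.natDegree_le (A := k) (AdjoinRoot.root p + algebraMap K (AdjoinRoot p) b)
  have hK : 0 < Module.finrank k K := Module.finrank_pos
  have h3 : f.natDegree ≤ p.natDegree := by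
    have h4 : f.natDegree * Module.finrank k K ≤ p.natDegree * Module.finrank k K := by
      rw [← hdeg, h1, ← hfin, mul_comm (Module.finrank K (AdjoinRoot p)), hfin2]
      exact h2
    exact Nat.le_of_mul_le_mul_right h4 hK
  have h5 : f.natDegree = p.natDegree + q.natDegree := by
    rw [hq, natDegree_mul hp0 hq0]
  have hqu : IsUnit q := by
    rw [Polynomial.isUnit_iff_degree_eq_zero, degree_eq_natDegree hq0]
    have : q.natDegree = 0 := by omega
    rw [this]
    rfl
  have h6 : Associated p f := by
    obtain ⟨u, hu⟩ := hqu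
    exact ⟨u, by rw [hu, ← hq]⟩
  exact h6.irreducible hp

end Pool.Agent.Lib.MP_16285c_agN.Hit
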