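import Pool.Agent.Lib.MP_16285c_agN.Hit.Spec

/-!
# `StmtEval`: evaluation of power series over `ℤ_l` at elements of norm `< 1`
-/

set_option autoImplicit false

noncomputable section

namespace Pool.Agent.Lib.MP_16285c_agN.Hit

namespace Eval_aux

variable {l : ℕ} [Fact l.Prime]

/-- the terms of the series -/
def term (T : ℤ_[l]) (φ : PowerSeries ℤ_[l]) (n : ℕ) : ℤ_[l] := PowerSeries.coeff n φ * T ^ n

theorem summable_norm_term {T : ℤ_[l]} (hT : ‖T‖ < 1) (φ : PowerSeries ℤ_[l]) :
    Summable (fun n => ‖term T φ n‖) := by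
  refine Summable.of_nonneg_of_le (fun n => norm_nonneg _) (fun n => ?_)
    (summable_geometric_of_lt_one (norm_nonneg T) hT)
  unfold term
  rw [norm_mul, norm_pow]
  have h := PadicInt.norm_le_one (PowerSeries.coeff n φ)
  have h2 : 0 ≤ ‖T‖ ^ n := by positivity
  nlinarith

theorem summable_term {T : ℤ_[l]} (hT : ‖T‖ < 1) (φ : PowerSeries ℤ_[l]) : Summable (term T φ) :=
  (summable_norm_term hT φ).of_norm

theorem term_mul (T : ℤ_[l]) (φ ψ : PowerSeries ℤ_[l]) (n : ℕ) :
    term T (φ * ψ) n = ∑ k ∈ Finset.HasAntidiagonal.antidiagonal n, term T φ k.1 * term T ψ k.2 := by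
  unfold term
  rw [PowerSeries.coeff_mul, Finset.sum_mul]
  refine Finset.sum_congr rfl fun k hk => ?_
  rw [Finset.HasAntidiagonal.mem_antidiagonal] at hk
  rw [← hk, pow_add]
  ring

theorem tsum_C (T c : ℤ_[l]) : ∑' n, term T (PowerSeries.C c) n = c := by
  rw [tsum_eq_single 0]
  · simp [term]
  · intro n hn
    simp [term, PowerSeries.coeff_C, hn]

/-- the evaluation -/
def ev (T : ℤ_[l]) (hT : ‖T‖ < 1) : PowerSeries ℤ_[l] →+* ℤ_[l] where
  toFun φ := ∑' n, term T φ n
  map_one' := by
    have := tsum_C T 1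
    rwa [map_one] at this
  map_zero' := by
    have := tsum_C T 0
    rwa [map_zero] at this
  map_add' φ ψ := by
    rw [← (summable_term hT φ).tsum_add (summable_term hT ψ)]
    refine tsum_congr fun n => ?_
    simp only [term, map_add, add_mul]
  map_mul' φ ψ := by
    rw [tsum_mul_tsum_eq_tsum_sum_antidiagonal_of_summable_norm (summable_norm_term hT φ)
      (summable_norm_term hT ψ)]
    exact tsum_congr fun n => term_mul T φ ψ n

end Eval_aux

open Eval_aux in
theorem stmtEval : StmtEval := by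
  intro l _ T hT
  refine ⟨ev T hT, ?_, fun c => tsum_C T c⟩
  show ∑' n, term T PowerSeries.X n = T
  rw [tsum_eq_single 1]
  · simp [term]
  · intro n hn
    simp [term, PowerSeries.coeff_X, hn]

end Pool.Agent.Lib.MP_16285c_agN.Hit
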