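import Pool.Agent.Lib.MP_16285c_agN.Hit.Spec

/-!
# FG: a finitely generated field of characteristic 0 is finite over a field of rational functions
-/

set_option autoImplicit false

noncomputable section

namespace Pool.Agent.Lib.MP_16285c_agN.Hit

namespace FG_aux

/-- `K` is algebraic over the ring generated by a set of generators of the field `K`. -/
theorem alg_adjoin (K : Type) [Field K] (S : Set K) (hS : Subfield.closure S = ⊤) :
    Algebra.IsAlgebraic (Algebra.adjoin ℤ S) K := by
  constructor
  intro x
  have hx : x ∈ Subfield.closure S := by rw [hS]; trivial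
  obtain ⟨y, hy, z, hz, rfl⟩ := Subfield.mem_closure_iff.1 hx
  have hle : Subring.closure S ≤ (Algebra.adjoin ℤ S).toSubring :=
    Subring.closure_le.2 Algebra.subset_adjoin
  have hy' : y ∈ Algebra.adjoin ℤ S := hle hy
  have hz' : z ∈ Algebra.adjoin ℤ S := hle hz
  by_cases h0 : z = 0
  · subst h0
    simpa using (isAlgebraic_zero : IsAlgebraic (Algebra.adjoin ℤ S) (0 : K))
  · refine ⟨Polynomial.C (⟨z, hz'⟩ : Algebra.adjoin ℤ S) * Polynomial.X -
      Polynomial.C (⟨y, hy'⟩ : Algebra.adjoin ℤ S), ?_, ?_⟩
    · intro h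
      have h1 := congrArg (fun p => Polynomial.coeff p 1) h
      simp only [Polynomial.coeff_sub, Polynomial.coeff_C_mul, Polynomial.coeff_X_one,
        Polynomial.coeff_C_succ, mul_one, sub_zero, Polynomial.coeff_zero] at h1
      exact h0 (congrArg Subtype.val h1)
    · have e1 : algebraMap (Algebra.adjoin ℤ S) K ⟨z, hz'⟩ = z := rfl
      have e2 : algebraMap (Algebra.adjoin ℤ S) K ⟨y, hy'⟩ = y := rfl
      simp only [map_sub, map_mul, Polynomial.aeval_C, Polynomial.aeval_X, e1, e2]
      rw [mul_div_cancel₀ _ h0, sub_self]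

end FG_aux

open FG_aux

theorem stmtFG : StmtFG := by
  intro K _ _ hK
  obtain ⟨S, hS⟩ := hK
  have := alg_adjoin K (S : Set K) hS
  obtain ⟨t, htS, ht⟩ := exists_isTranscendenceBasis_subset (R := ℤ) (A := K) (S : Set K)
  have htf : t.Finite := S.finite_toSet.subset htS
  have : Finite t := htf
  obtain ⟨m, ⟨e⟩⟩ := Finite.exists_equiv_fin t
  have hx : IsTranscendenceBasis ℤ ((Subtype.val : t → K) ∘ e.symm) := ht.comp_equiv e.symm
  set x : Fin m → K := (Subtype.val : t → K) ∘ e.symm with hxdef
  have hinj : Function.Injective (MvPolynomial.aeval x : MvPolynomial (Fin m) ℤ →ₐ[ℤ] K) := hx.1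
  let g : MvPolynomial (Fin m) ℤ →+* K := (MvPolynomial.aeval x : MvPolynomial (Fin m) ℤ →ₐ[ℤ] K).toRingHom
  have hg : Function.Injective g := hinj
  let φ : FractionRing (MvPolynomial (Fin m) ℤ) →+* K := IsFractionRing.lift hg
  have hφ : ∀ a, φ (algebraMap _ _ a) = g a := fun a => IsFractionRing.lift_algebraMap hg a
  refine ⟨m, φ, ?_⟩
  let _ : Algebra (FractionRing (MvPolynomial (Fin m) ℤ)) K := φ.toAlgebra
  have hmap : ∀ a : FractionRing (MvPolynomial (Fin m) ℤ), algebraMap _ K a = φ a := fun a => rfl
  have hA : Algebra.IsAlgebraic (Algebra.adjoin ℤ (Set.range x)) K := hx.isAlgebraic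
  have hint : ∀ y : K, IsIntegral (FractionRing (MvPolynomial (Fin m) ℤ)) y := by
    intro y
    rw [← isAlgebraic_iff_isIntegral]
    obtain ⟨p, hp, hpy⟩ := hA.isAlgebraic y
    -- lift the coefficients
    have hlift : ∀ c : Algebra.adjoin ℤ (Set.range x), ∃ a : MvPolynomial (Fin m) ℤ, g a = (c : K) := by
      intro c
      have hc : (c : K) ∈ (MvPolynomial.aeval x : MvPolynomial (Fin m) ℤ →ₐ[ℤ] K).range := by
        rw [← Algebra.adjoin_range_eq_range_aeval]
        exact c.2
      obtain ⟨a, ha⟩ := hc
      exact ⟨a, ha⟩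
    choose L hL using hlift
    refine ⟨∑ i ∈ p.support, Polynomial.monomial i (algebraMap _ (FractionRing (MvPolynomial (Fin m) ℤ))
      (L (p.coeff i))), ?_, ?_⟩
    · intro h
      apply hp
      ext1 i
      have hi := congrArg (fun q => Polynomial.coeff q i) h
      simp only [Polynomial.finsetSum_coeff, Polynomial.coeff_monomial, Polynomial.coeff_zero,
        Finset.sum_ite_eq'] at hi
      by_cases h0 : p.coeff i = 0
      · rw [h0, Polynomial.coeff_zero]
      · rw [if_pos (Polynomial.mem_support_iff.2 h0)] at hi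
        have h1 : L (p.coeff i) = 0 :=
          (IsFractionRing.injective (MvPolynomial (Fin m) ℤ) (FractionRing (MvPolynomial (Fin m) ℤ)))
            (by rw [hi, map_zero])
        have h2 := hL (p.coeff i)
        rw [h1, map_zero] at h2
        exact absurd (Subtype.ext h2.symm) h0
    · rw [map_sum]
      have h3 : ∀ i ∈ p.support, (Polynomial.aeval y) (Polynomial.monomial i
          (algebraMap _ (FractionRing (MvPolynomial (Fin m) ℤ)) (L (p.coeff i)))) =
          ((p.coeff i : Algebra.adjoin ℤ (Set.range x)) : K) * y ^ i := by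
        intro i _
        rw [Polynomial.aeval_monomial, hmap, hφ, hL]
      rw [Finset.sum_congr rfl h3]
      rw [Polynomial.aeval_def, Polynomial.eval₂_eq_sum, Polynomial.sum_def] at hpy
      exact hpy
  have hfin : FiniteDimensional (FractionRing (MvPolynomial (Fin m) ℤ))
      (IntermediateField.adjoin (FractionRing (MvPolynomial (Fin m) ℤ)) (S : Set K)) :=
    IntermediateField.finiteDimensional_adjoin fun y _ => hint y
  have htop : IntermediateField.adjoin (FractionRing (MvPolynomial (Fin m) ℤ)) (S : Set K) = ⊤ := by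
    rw [eq_top_iff]
    intro y _
    have hy : y ∈ Subfield.closure (S : Set K) := by rw [hS]; trivial
    have hle : Subfield.closure (S : Set K) ≤
        (IntermediateField.adjoin (FractionRing (MvPolynomial (Fin m) ℤ)) (S : Set K)).toSubfield :=
      Subfield.closure_le.2 (IntermediateField.subset_adjoin _ _)
    exact hle hy
  rw [htop] at hfin
  have hfin' : FiniteDimensional (FractionRing (MvPolynomial (Fin m) ℤ)) K :=
    (IntermediateField.topEquiv (F := FractionRing (MvPolynomial (Fin m) ℤ))
      (E := K)).toLinearEquiv.finiteDimensional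
  exact hfin'

end Pool.Agent.Lib.MP_16285c_agN.Hit
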