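import Pool.Agent.Lib.MP_16285c_agN.Hit.Spec

/-!
# Hilbert irreducibility: finite extensions (`StmtFin`)
-/

set_option autoImplicit false

noncomputable section

namespace Pool.Agent.Lib.MP_16285c_agN.Hit

open Polynomial

namespace Fin_aux

/-- A monic irreducible polynomial over a commutative ring has positive degree. -/
theorem natDegree_pos {R : Type} [CommRing R] (F : Polynomial R) (hm : F.Monic)
    (hi : Irreducible F) : 0 < F.natDegree := by
  rcases Nat.eq_zero_or_pos F.natDegree with h0 | h0
  · exfalso
    have h1 : F = 1 := hm.natDegree_eq_zero.mp h0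
    rw [h1] at hi
    exact hi.not_isUnit isUnit_one
  · exact h0

end Fin_aux

/-- **FIN.** Finite extensions. -/
theorem stmtFin (hP : StmtPrim) (hD : StmtDown) (hF : StmtFunc) : StmtFin := by
  intro k K _ _ _ _ _ σ _ hk F G hFm hFi hG
  obtain ⟨H, b, hHm, hHi, hdeg, hdvd⟩ := hP k K σ F hFm hFi
  obtain ⟨G', hG', hGG'⟩ := hF k K σ G hG
  obtain ⟨x, hx1, hx2⟩ := hk H G' hHm hHi hG'
  have hpt : (fun i => algebraMap k K ((x i : k))) = fun i => (x i : K) := by
    funext i
    exact map_intCast (algebraMap k K) (x i)
  refine ⟨x, ?_, ?_⟩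
  · have hFpos := Fin_aux.natDegree_pos F hFm hFi
    have hcomp : (MvPolynomial.eval fun i => (x i : K)).comp (MvPolynomial.map (algebraMap k K))
        = (algebraMap k K).comp (MvPolynomial.eval fun i => (x i : k)) := by
      apply MvPolynomial.ringHom_ext
      · intro r
        simp
      · intro i
        simp
    refine hD k K (H.map (MvPolynomial.eval fun i => (x i : k)))
      (F.map (MvPolynomial.eval fun i => (x i : K))) b hx1 (hFm.map _) ?_ ?_ ?_
    · rw [hFm.natDegree_map]
      exact hFpos
    · rw [hHm.natDegree_map, hFm.natDegree_map]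
      exact hdeg
    · have h1 := Polynomial.map_dvd (MvPolynomial.eval fun i => (x i : K)) hdvd
      rw [Polynomial.map_comp, Polynomial.map_map, hcomp, ← Polynomial.map_map] at h1
      simpa using h1
  · intro h0
    apply hx2
    apply hGG'
    rw [hpt]
    exact h0

end Pool.Agent.Lib.MP_16285c_agN.Hit
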