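import Pool.Agent.Lib.MP_16285c_agN.Hit.Spec

/-!
# A polynomial over `K` and the points with coordinates in `k`
-/

set_option autoImplicit false

noncomputable section

namespace Pool.Agent.Lib.MP_16285c_agN.Hit

/-- For `G ≠ 0` over `K` there is `G' ≠ 0` over `k` which vanishes at the `k`-points where `G` vanishes. -/
theorem stmtFunc : StmtFunc := by
  classical
  intro k K _ _ _ σ G hG
  obtain ⟨d₀, hd₀⟩ := MvPolynomial.ne_zero_iff.1 hG
  obtain ⟨l, hl⟩ : ∃ l : Module.Dual k K, l (MvPolynomial.coeff d₀ G) ≠ 0 := by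
    by_contra h
    push Not at h
    exact hd₀ ((Module.forall_dual_apply_eq_zero_iff k _).1 h)
  refine ⟨∑ d ∈ G.support, MvPolynomial.monomial d (l (MvPolynomial.coeff d G)), ?_, fun x hx => ?_⟩
  · rw [MvPolynomial.ne_zero_iff]
    refine ⟨d₀, ?_⟩
    rw [MvPolynomial.coeff_sum]
    simp only [MvPolynomial.coeff_monomial]
    rw [Finset.sum_ite_eq' G.support d₀ (fun d => l (MvPolynomial.coeff d G)),
      if_pos (MvPolynomial.mem_support_iff.2 hd₀)]
    exact hl
  · have h1 : l (MvPolynomial.eval (fun i => algebraMap k K (x i)) G) = 0 := by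
      rw [hx, map_zero]
    rw [MvPolynomial.eval_eq, map_sum] at h1
    rw [map_sum, ← h1]
    refine Finset.sum_congr rfl fun d _ => ?_
    rw [MvPolynomial.eval_monomial, Finsupp.prod]
    have h2 : (∏ i ∈ d.support, (algebraMap k K (x i)) ^ d i) = algebraMap k K (∏ i ∈ d.support, x i ^ d i) := by
      rw [map_prod]
      simp only [map_pow]
    rw [h2, mul_comm (MvPolynomial.coeff d G), ← Algebra.smul_def, map_smul, smul_eq_mul, mul_comm]

end Pool.Agent.Lib.MP_16285c_agN.Hit
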