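import Pool.Agent.Lib.MP_16285c_agN.Hit.Spec

/-!
# The integral factor belonging to a set of `l`-adic roots
-/

set_option autoImplicit false

noncomputable section

namespace Pool.Agent.Lib.MP_16285c_agN.Hit

open Polynomial

namespace Gauss_aux

/-- A monic divisor of a product of linear factors is the product of some of them. -/
theorem sub_prod {R ι : Type*} [CommRing R] [IsDomain R] [DecidableEq ι] (η : ι → R) (s : Finset ι) :
    ∀ B B' : R[X], B.Monic → B * B' = ∏ i ∈ s, (X - C (η i)) →
      ∃ I : Finset ι, I ⊆ s ∧ B = ∏ i ∈ I, (X - C (η i)) := by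
  induction s using Finset.induction_on with
  | empty =>
    intro B B' hB h
    refine ⟨∅, Finset.Subset.refl _, ?_⟩
    rw [Finset.prod_empty] at h ⊢
    exact hB.eq_one_of_isUnit (IsUnit.of_mul_eq_one _ h)
  | insert a s ha ih =>
    intro B B' hB h
    rw [Finset.prod_insert ha] at h
    have hp : Prime (X - C (η a) : R[X]) := prime_X_sub_C _
    have hd : (X - C (η a) : R[X]) ∣ B * B' := ⟨_, h⟩
    rcases hp.dvd_or_dvd hd with h1 | h1
    · obtain ⟨B1, h2⟩ := h1
      have h3 : B1.Monic := (monic_X_sub_C (η a)).of_mul_monic_left (h2 ▸ hB)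
      have h4 : B1 * B' = ∏ i ∈ s, (X - C (η i)) := by
        refine mul_left_cancel₀ hp.ne_zero ?_
        rw [← h, h2, mul_assoc]
      obtain ⟨I, hI, h5⟩ := ih B1 B' h3 h4
      refine ⟨insert a I, Finset.insert_subset_insert a hI, ?_⟩
      rw [Finset.prod_insert (fun h => ha (hI h)), ← h5, h2]
    · obtain ⟨B1, h2⟩ := h1
      have h4 : B * B1 = ∏ i ∈ s, (X - C (η i)) := by
        refine mul_left_cancel₀ hp.ne_zero ?_
        rw [← h, h2, mul_left_comm]
      obtain ⟨I, hI, h5⟩ := ih B B1 hB h4
      exact ⟨I, hI.trans (Finset.subset_insert a s), h5⟩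

end Gauss_aux

open Gauss_aux in
/-- A reducible `P` has a monic factor which is the product over a proper set of the roots. -/
theorem stmtGauss : StmtGauss := by
  classical
  intro l _ D P η hP hD hprod hirr
  have hdeg : P.natDegree = D := by
    have h1 := congrArg natDegree hprod
    rw [hP.natDegree_map, natDegree_finsetProd_X_sub_C_eq_card] at h1
    rw [h1, Finset.card_univ, Fintype.card_fin]
  have hne : P ≠ 1 := by
    intro h
    rw [h, natDegree_one] at hdeg
    exact hD.ne hdeg
  rw [hP.irreducible_iff_natDegree] at hirr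
  push Not at hirr
  obtain ⟨f, g, hf, hg, hfg, hf0, hg0⟩ := hirr hne
  obtain ⟨I, -, hI⟩ := sub_prod η Finset.univ (f.map (Int.castRingHom ℤ_[l])) (g.map (Int.castRingHom ℤ_[l]))
    (hf.map _) (by rw [← Polynomial.map_mul, hfg, hprod])
  have hfc : f.natDegree = I.card := by
    have h1 := congrArg natDegree hI
    rwa [hf.natDegree_map, natDegree_finsetProd_X_sub_C_eq_card] at h1
  refine ⟨f, I, hf, ⟨g, hfg.symm⟩, ?_, ?_, hI⟩
  · rw [← Finset.card_pos, ← hfc]
    exact Nat.pos_of_ne_zero hf0
  · intro h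
    rw [h, Finset.card_univ, Fintype.card_fin, ← hdeg, ← hfg, hf.natDegree_mul hg] at hfc
    exact hg0 (by omega)

end Pool.Agent.Lib.MP_16285c_agN.Hit
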