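import Pool.Agent.Lib.MP_16285c_agN.Hit.Spec

/-!
# Hilbert's irreducibility theorem for finitely generated fields of characteristic 0
-/

set_option autoImplicit false

noncomputable section

namespace Pool.Agent.Lib.MP_16285c_agN.Hit

open Polynomial

theorem stmtHITK (h0 : StmtQ0) (hF : StmtFin) (hG : StmtFG) : StmtHITK := by
  intro K _ _ hS σ _
  obtain ⟨m, φ, hφ⟩ := hG K hS
  letI : Algebra (FractionRing (MvPolynomial (Fin m) ℤ)) K := φ.toAlgebra
  haveI : FiniteDimensional (FractionRing (MvPolynomial (Fin m) ℤ)) K := hφ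
  haveI : CharZero (FractionRing (MvPolynomial (Fin m) ℤ)) := φ.charZero
  exact hF (FractionRing (MvPolynomial (Fin m) ℤ)) K σ (h0 (Fin m) σ)

namespace HITK_aux

variable {K : Type} [Field K] {σ : Type}

/-- the automorphism `t_i ↦ a_i + M t_i` -/
def aff (M : K) (a : σ → K) (hM : M ≠ 0) : MvPolynomial σ K ≃ₐ[K] MvPolynomial σ K :=
  AlgEquiv.ofAlgHom
    (MvPolynomial.aeval fun i => MvPolynomial.C (a i) + MvPolynomial.C M * MvPolynomial.X i)
    (MvPolynomial.aeval fun i => MvPolynomial.C M⁻¹ * (MvPolynomial.X i - MvPolynomial.C (a i)))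
    (by
      ext i
      simp only [AlgHom.coe_comp, Function.comp_apply, MvPolynomial.aeval_X, map_mul, map_sub,
        MvPolynomial.algHom_C, AlgHom.coe_id, id_eq, MvPolynomial.algebraMap_eq]
      rw [show MvPolynomial.C (a i) + MvPolynomial.C M * MvPolynomial.X i - MvPolynomial.C (a i)
        = (MvPolynomial.C M * MvPolynomial.X i : MvPolynomial σ K) by ring, ← mul_assoc,
        ← MvPolynomial.C_mul, inv_mul_cancel₀ hM, MvPolynomial.C_1, one_mul])
    (by
      ext i
      simp only [AlgHom.coe_comp, Function.comp_apply, MvPolynomial.aeval_X, map_mul, map_add,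
        MvPolynomial.algHom_C, AlgHom.coe_id, id_eq, MvPolynomial.algebraMap_eq]
      rw [← mul_assoc, ← MvPolynomial.C_mul, mul_inv_cancel₀ hM, MvPolynomial.C_1, one_mul]
      exact add_sub_cancel _ _)

theorem eval_aff (M : K) (a x : σ → K) (hM : M ≠ 0) :
    (MvPolynomial.eval x).comp (aff M a hM : MvPolynomial σ K ≃+* MvPolynomial σ K).toRingHom =
      MvPolynomial.eval fun i => a i + M * x i := by
  apply MvPolynomial.ringHom_ext
  · intro r
    simp [aff]
  · intro i
    simp [aff]

end HITK_aux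

theorem stmtHITC (hK : StmtHITK) : StmtHITC := by
  intro K _ _ hS σ _ F G M a hF hirr hG hM
  have hM' : (M : K) ≠ 0 := by exact_mod_cast hM
  have hirr0 : Irreducible F := hF.irreducible_of_irreducible_map _ _ hirr
  let e : MvPolynomial σ K ≃+* MvPolynomial σ K :=
    (HITK_aux.aff (M : K) (fun i => (a i : K)) hM' : MvPolynomial σ K ≃+* MvPolynomial σ K)
  have hF' : (F.map e.toRingHom).Monic := hF.map _
  have hirr' : Irreducible (F.map e.toRingHom) :=
    (MulEquiv.irreducible_iff (Polynomial.mapEquiv e)).2 hirr0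
  have hG' : e G ≠ 0 := by
    intro h
    exact hG ((map_eq_zero_iff e e.injective).1 h)
  obtain ⟨x, hx1, hx2⟩ := hK K hS σ (F.map e.toRingHom) (e G) hF' hirr' hG'
  have key : (MvPolynomial.eval fun i => ((x i : ℤ) : K)).comp e.toRingHom =
      MvPolynomial.eval fun i => ((a i + M * x i : ℤ) : K) := by
    have := HITK_aux.eval_aff (M : K) (fun i => (a i : K)) (fun i => ((x i : ℤ) : K)) hM'
    rw [this]
    simp
  refine ⟨fun i => a i + M * x i, fun i => ⟨x i, by ring⟩, ?_, ?_⟩
  · rw [← key, ← Polynomial.map_map]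
    exact hx1
  · rw [← key]
    exact hx2

end Pool.Agent.Lib.MP_16285c_agN.Hit
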