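import Pool.Agent.Lib.MP_16285c_agN.Hit.Spec

/-!
# Hit/HITZ: translation to a separable fibre
-/

set_option autoImplicit false

noncomputable section

namespace Pool.Agent.Lib.MP_16285c_agN.Hit

open Polynomial

namespace HITZ_aux

/-- The automorphism `t ↦ t + z`. -/
def sh {σ : Type} (z : σ → ℤ) : MvPolynomial σ ℤ →ₐ[ℤ] MvPolynomial σ ℤ :=
  MvPolynomial.aeval fun i => MvPolynomial.X i + MvPolynomial.C (z i)

theorem sh_comp {σ : Type} (z z' : σ → ℤ) (h : ∀ i, z i + z' i = 0) (G : MvPolynomial σ ℤ) :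
    sh z' (sh z G) = G := by
  have h2 : (sh z').comp (sh z) = AlgHom.id ℤ (MvPolynomial σ ℤ) := by
    refine MvPolynomial.algHom_ext fun i => ?_
    rw [AlgHom.comp_apply, AlgHom.id_apply]
    unfold sh
    rw [MvPolynomial.aeval_X, map_add, MvPolynomial.algHom_C, MvPolynomial.aeval_X,
      MvPolynomial.algebraMap_eq, add_assoc, ← MvPolynomial.C_add, add_comm (z' i), h,
      MvPolynomial.C_0, add_zero]
  exact DFunLike.congr_fun h2 G

/-- As an equivalence. -/
def shE {σ : Type} (z : σ → ℤ) : MvPolynomial σ ℤ ≃+* MvPolynomial σ ℤ where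
  toFun := sh z
  invFun := sh (-z)
  left_inv := sh_comp _ _ fun i => by rw [Pi.neg_apply, add_neg_cancel]
  right_inv := sh_comp _ _ fun i => by rw [Pi.neg_apply, neg_add_cancel]
  map_mul' := map_mul _
  map_add' := map_add _

theorem eval_sh {σ : Type} (z x : σ → ℤ) (H : MvPolynomial σ ℤ) :
    MvPolynomial.eval x (shE z H) = MvPolynomial.eval (fun i => x i + z i) H := by
  have h : (MvPolynomial.eval x).comp (sh z : MvPolynomial σ ℤ →+* MvPolynomial σ ℤ) =
      MvPolynomial.eval fun i => x i + z i := by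
    refine MvPolynomial.ringHom_ext (fun c => ?_) fun i => ?_
    · rw [RingHom.comp_apply, RingHom.coe_coe]
      unfold sh
      rw [MvPolynomial.algHom_C, MvPolynomial.algebraMap_eq, MvPolynomial.eval_C,
        MvPolynomial.eval_C]
    · rw [RingHom.comp_apply, RingHom.coe_coe]
      unfold sh
      rw [MvPolynomial.aeval_X, map_add, MvPolynomial.eval_C, MvPolynomial.eval_X,
        MvPolynomial.eval_X]
  exact DFunLike.congr_fun h H

theorem map_sh {σ : Type} (z x : σ → ℤ) (F : Polynomial (MvPolynomial σ ℤ)) :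
    (F.map (shE z : MvPolynomial σ ℤ →+* MvPolynomial σ ℤ)).map (MvPolynomial.eval x) =
      F.map (MvPolynomial.eval fun i => x i + z i) := by
  ext1 j
  rw [Polynomial.coeff_map, Polynomial.coeff_map, Polynomial.coeff_map]
  exact eval_sh z x _

/-- Bezout without denominators. -/
theorem bez {A : Type} [CommRing A] [IsDomain A] [IsIntegrallyClosed A] [CharZero A]
    (F : Polynomial A) (hF : F.Monic) (hI : Irreducible F) :
    ∃ (a b : Polynomial A) (δ : A), δ ≠ 0 ∧ a * F + b * derivative F = C δ := by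
  have hI' : Irreducible (F.map (algebraMap A (FractionRing A))) :=
    (Polynomial.Monic.irreducible_iff_irreducible_map_fraction_map hF).1 hI
  have : CharZero (FractionRing A) :=
    charZero_of_injective_ringHom (IsFractionRing.injective A (FractionRing A))
  obtain ⟨u, v, huv⟩ := hI'.separable
  obtain ⟨α, hα', hα⟩ := IsLocalization.integerNormalization_spec (nonZeroDivisors A) u
  obtain ⟨β, hβ', hβ⟩ := IsLocalization.integerNormalization_spec (nonZeroDivisors A) v
  refine ⟨C β * IsLocalization.integerNormalization (nonZeroDivisors A) u,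
    C α * IsLocalization.integerNormalization (nonZeroDivisors A) v, α * β, ?_, ?_⟩
  · exact mul_ne_zero (nonZeroDivisors.ne_zero hα') (nonZeroDivisors.ne_zero hβ')
  · apply Polynomial.map_injective _ (IsFractionRing.injective A (FractionRing A))
    rw [Polynomial.map_add, Polynomial.map_mul, Polynomial.map_mul, Polynomial.map_mul,
      Polynomial.map_mul, hα, hβ, Polynomial.map_C, Polynomial.map_C, Polynomial.map_C,
      ← Polynomial.derivative_map, map_mul]
    rw [Algebra.smul_def, Algebra.smul_def, Polynomial.algebraMap_apply,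
      Polynomial.algebraMap_apply, C_mul]
    linear_combination C (algebraMap A (FractionRing A) α) * C (algebraMap A (FractionRing A) β) * huv

end HITZ_aux

open HITZ_aux in
theorem stmtHITZ (hS : StmtSep) : StmtHITZ := by
  intro σ _ F G hF hI hG
  obtain ⟨a, b, δ, hδ, hab⟩ := bez F hF hI
  obtain ⟨z, hz⟩ : ∃ z : σ → ℤ, MvPolynomial.eval z δ ≠ 0 := by
    by_contra h
    push Not at h
    exact hδ (MvPolynomial.funext fun x => by rw [h x, map_zero])
  have hsep : ((F.map (MvPolynomial.eval z)).map (Int.castRingHom ℚ)).Separable := by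
    have hzQ : ((MvPolynomial.eval z δ : ℤ) : ℚ) ≠ 0 := Int.cast_ne_zero.2 hz
    have h := congrArg (fun p => (p.map (MvPolynomial.eval z)).map (Int.castRingHom ℚ)) hab
    simp only [Polynomial.map_add, Polynomial.map_mul, Polynomial.map_C,
      ← Polynomial.derivative_map] at h
    refine ⟨C ((MvPolynomial.eval z δ : ℤ) : ℚ)⁻¹ *
      (a.map (MvPolynomial.eval z)).map (Int.castRingHom ℚ),
      C ((MvPolynomial.eval z δ : ℤ) : ℚ)⁻¹ *
      (b.map (MvPolynomial.eval z)).map (Int.castRingHom ℚ), ?_⟩
    have h2 : C ((MvPolynomial.eval z δ : ℤ) : ℚ)⁻¹ * C ((MvPolynomial.eval z δ : ℤ) : ℚ) = 1 := by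
      rw [← C_mul, inv_mul_cancel₀ hzQ, C_1]
    rw [mul_assoc, mul_assoc, ← mul_add, h]
    exact h2
  have hI' : Irreducible (F.map (shE z : MvPolynomial σ ℤ →+* MvPolynomial σ ℤ)) :=
    (MulEquiv.irreducible_iff (Polynomial.mapEquiv (shE z))).2 hI
  have hG' : shE z G ≠ 0 := fun h => hG ((shE z).injective (h.trans (map_zero _).symm))
  obtain ⟨x, h1, h2⟩ := hS σ _ _ (hF.map _) hI' hG' (by
    rw [map_sh]
    have h3 : (fun i => (0 : ℤ) + z i) = z := by
      funext i
      rw [zero_add]
    rw [h3]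
    exact hsep)
  refine ⟨fun i => x i + z i, ?_, ?_⟩
  · rw [← map_sh]
    exact h1
  · rw [← eval_sh]
    exact h2

end Pool.Agent.Lib.MP_16285c_agN.Hit
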