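import Pool.Agent.Lib.MP_16285c_agN.Hit.Spec

/-!
# `StmtIrrat`
-/

set_option autoImplicit false

noncomputable section

namespace Pool.Agent.Lib.MP_16285c_agN.Hit

open Polynomial

namespace Irrat_aux

/-- `ℤ_l[v][[s]] → ℚ_l[v][[s]]` -/
def rho (l : ℕ) [Fact l.Prime] (σ : Type) :
    PowerSeries (MvPolynomial σ ℤ_[l]) →+* PowerSeries (MvPolynomial σ ℚ_[l]) :=
  PowerSeries.map (MvPolynomial.map (algebraMap ℤ_[l] ℚ_[l]))

/-- `ℚ[v][s] → ℚ_l[v][[s]]` -/
def tau (l : ℕ) [Fact l.Prime] (σ : Type) :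
    Polynomial (MvPolynomial σ ℚ) →+* PowerSeries (MvPolynomial σ ℚ_[l]) :=
  (Polynomial.coeToPowerSeries.ringHom (R := MvPolynomial σ ℚ_[l])).comp
    (Polynomial.mapRingHom (MvPolynomial.map (algebraMap ℚ ℚ_[l])))

/-- `ℤ[t] → ℚ[v][s]`, `t ↦ s v` -/
def linQ (σ : Type) : MvPolynomial σ ℤ →+* Polynomial (MvPolynomial σ ℚ) :=
  MvPolynomial.eval₂Hom (Int.castRingHom _)
    fun i => Polynomial.X * Polynomial.C (MvPolynomial.X i)

lemma coeff_tau (l : ℕ) [Fact l.Prime] (σ : Type) (p : Polynomial (MvPolynomial σ ℚ)) (m : ℕ) :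
    PowerSeries.coeff m (tau l σ p) = MvPolynomial.map (algebraMap ℚ ℚ_[l]) (p.coeff m) := by
  simp [tau, Polynomial.coeff_coe]

lemma tau_injective (l : ℕ) [Fact l.Prime] (σ : Type) : Function.Injective (tau l σ) := by
  intro p q h
  refine Polynomial.ext fun m => ?_
  have h1 := congrArg (PowerSeries.coeff m) h
  rw [coeff_tau, coeff_tau] at h1
  exact MvPolynomial.map_injective _ (algebraMap ℚ ℚ_[l]).injective h1

lemma tau_linQ (l : ℕ) [Fact l.Prime] (σ : Type) :
    (tau l σ).comp (linQ σ) = (rho l σ).comp (lin l σ) := by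
  refine MvPolynomial.ringHom_ext (fun r => ?_) (fun i => ?_)
  · have e1 : ((tau l σ).comp (linQ σ)).comp MvPolynomial.C =
        ((rho l σ).comp (lin l σ)).comp MvPolynomial.C := RingHom.ext_int _ _
    exact congrArg (fun f => f r) e1
  · simp only [RingHom.comp_apply, linQ, lin, MvPolynomial.eval₂Hom_X', map_mul]
    congr 1
    · simp [tau, rho]
    · simp [tau, rho]

/-- the map to the field of fractions -/
def kap (σ : Type) : MvPolynomial σ ℚ →+* FractionRing (MvPolynomial σ ℤ) :=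
  MvPolynomial.eval₂Hom (algebraMap ℚ (FractionRing (MvPolynomial σ ℤ)))
    fun i => algebraMap (MvPolynomial σ ℤ) (FractionRing (MvPolynomial σ ℤ)) (MvPolynomial.X i)

lemma kap_comp (σ : Type) :
    (kap σ).comp ((Polynomial.evalRingHom 1).comp (linQ σ)) =
      algebraMap (MvPolynomial σ ℤ) (FractionRing (MvPolynomial σ ℤ)) := by
  refine MvPolynomial.ringHom_ext (fun r => ?_) (fun i => ?_)
  · have e1 : ((kap σ).comp ((Polynomial.evalRingHom 1).comp (linQ σ))).comp MvPolynomial.C =
        (algebraMap (MvPolynomial σ ℤ) (FractionRing (MvPolynomial σ ℤ))).comp MvPolynomial.C :=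
      RingHom.ext_int _ _
    exact congrArg (fun f => f r) e1
  · simp [RingHom.comp_apply, linQ, kap]

/-- a power series over `ℤ_l[v]` with rational coefficients, which is a polynomial -/
lemma exists_tau (l : ℕ) [Fact l.Prime] (σ : Type) (φ : PowerSeries (MvPolynomial σ ℤ_[l]))
    (A : ℕ) (h1 : ∀ m, A < m → PowerSeries.coeff m φ = 0)
    (h2 : ∀ m, RatP (PowerSeries.coeff m φ)) : rho l σ φ ∈ Set.range (tau l σ) := by
  have h3 : ∀ m, ∃ c : MvPolynomial σ ℚ, MvPolynomial.map (algebraMap ℚ ℚ_[l]) c =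
      MvPolynomial.map (algebraMap ℤ_[l] ℚ_[l]) (PowerSeries.coeff m φ) := by
    intro m
    have : MvPolynomial.map (algebraMap ℤ_[l] ℚ_[l]) (PowerSeries.coeff m φ) ∈
        Set.range (MvPolynomial.map (σ := σ) (algebraMap ℚ ℚ_[l])) := by
      rw [MvPolynomial.mem_range_map_iff_coeffs_subset]
      intro x hx
      rw [Finset.mem_coe, MvPolynomial.mem_coeffs_iff] at hx
      obtain ⟨d, -, rfl⟩ := hx
      obtain ⟨q, hq⟩ := h2 m d
      refine ⟨q, ?_⟩
      rw [MvPolynomial.coeff_map]
      exact hq.symm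
    exact this
  choose c hc using h3
  refine ⟨∑ m ∈ Finset.range (A + 1), Polynomial.monomial m (c m), ?_⟩
  refine PowerSeries.ext fun m => ?_
  rw [coeff_tau, Polynomial.finsetSum_coeff]
  simp only [Polynomial.coeff_monomial, Finset.sum_ite_eq', Finset.mem_range]
  simp only [rho, PowerSeries.coeff_map]
  split_ifs with h
  · rw [hc]
  · rw [map_zero, h1 m (by omega), map_zero]

end Irrat_aux

open Irrat_aux

theorem stmtIrrat : StmtIrrat := by
  intro l _ σ _ D F y hF hirr hfac I hI hI' A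
  by_contra hcon
  push Not at hcon
  obtain ⟨P, hP⟩ : ∃ P, P = ∏ i ∈ I, (X - Polynomial.C (y i)) := ⟨_, rfl⟩
  rw [← hP] at hcon
  have hPm : P.Monic := by
    rw [hP]
    exact Polynomial.monic_prod_of_monic _ _ fun i _ => Polynomial.monic_X_sub_C _
  have hPd : P.natDegree = I.card := by
    rw [hP, Polynomial.natDegree_prod_of_monic _ _ fun i _ => Polynomial.monic_X_sub_C _]
    simp
  have hdvd : P ∣ F.map (lin l σ) := by
    rw [hfac, hP]
    exact Finset.prod_dvd_prod_of_subset _ _ _ (Finset.subset_univ I)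
  have hFd : F.natDegree = D := by
    have h1 : (F.map (lin l σ)).natDegree = F.natDegree := hF.natDegree_map _
    rw [← h1, hfac, Polynomial.natDegree_prod_of_monic _ _ fun i _ => Polynomial.monic_X_sub_C _]
    simp
  -- the lift of `P`
  have hlift : P.map (rho l σ) ∈ Polynomial.lifts (tau l σ) := by
    rw [Polynomial.lifts_iff_coeff_lifts]
    intro j
    rw [Polynomial.coeff_map]
    exact exists_tau l σ (P.coeff j) A (fun m hm => (hcon j m).1 hm) (fun m => (hcon j m).2)
  obtain ⟨p, hp1, hp2, hp3⟩ :=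
    Polynomial.lifts_and_natDegree_eq_and_monic hlift (hPm.map _)
  rw [hPm.natDegree_map, hPd] at hp2
  have hdvd2 : p ∣ F.map (linQ σ) := by
    rw [← Polynomial.map_dvd_map (tau l σ) (tau_injective l σ) hp3, hp1, Polynomial.map_map,
      tau_linQ, ← Polynomial.map_map]
    exact Polynomial.map_dvd _ hdvd
  have hdvd3 : (p.map (Polynomial.evalRingHom 1)).map (kap σ) ∣
      F.map (algebraMap (MvPolynomial σ ℤ) (FractionRing (MvPolynomial σ ℤ))) := by
    rw [← kap_comp, ← Polynomial.map_map, ← Polynomial.map_map]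
    exact Polynomial.map_dvd _ (Polynomial.map_dvd _ hdvd2)
  have hirr' : Irreducible (F.map (algebraMap (MvPolynomial σ ℤ)
      (FractionRing (MvPolynomial σ ℤ)))) :=
    (Polynomial.Monic.irreducible_iff_irreducible_map_fraction_map hF).1 hirr
  obtain ⟨q, hq⟩ := hdvd3
  obtain ⟨p', hp'⟩ : ∃ p', p' = (p.map (Polynomial.evalRingHom 1)).map (kap σ) := ⟨_, rfl⟩
  rw [← hp'] at hq
  have hp'm : p'.Monic := by
    rw [hp']
    exact (hp3.map _).map _
  have hp'd : p'.natDegree = I.card := by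
    rw [hp', (hp3.map _).natDegree_map, hp3.natDegree_map, hp2]
  have hqm : q.Monic := by
    have h1 : (p' * q).Monic := by
      rw [← hq]
      exact hF.map _
    exact hp'm.of_mul_monic_left h1
  have hqd : I.card + q.natDegree = D := by
    have h1 : (p' * q).natDegree = p'.natDegree + q.natDegree := hp'm.natDegree_mul hqm
    rw [← hq, hF.natDegree_map, hFd, hp'd] at h1
    exact h1.symm
  rcases hirr'.isUnit_or_isUnit hq with h | h
  · have h1 : p'.natDegree = 0 := by
      rw [hp'm.eq_one_of_isUnit h, Polynomial.natDegree_one]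
    rw [hp'd] at h1
    exact hI.ne_empty (Finset.card_eq_zero.1 h1)
  · have h1 : q.natDegree = 0 := by
      rw [hqm.eq_one_of_isUnit h, Polynomial.natDegree_one]
    rw [h1, add_zero] at hqd
    exact hI' (Finset.eq_univ_of_card I (by rw [hqd, Fintype.card_fin]))

end Pool.Agent.Lib.MP_16285c_agN.Hit
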