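import Pool.Agent.Lib.MP_16285c_agN.Hit.Spec

/-!
# KEY1: a power series with a non-zero coefficient of large index takes few small integral values
-/

set_option autoImplicit false

namespace Pool.Agent.Lib.MP_16285c_agN.Hit

namespace Key1_aux

/-- the Vandermonde matrix of the points -/
noncomputable def mat {m : ℕ} (s : Fin (m + 1) → ℕ) : Matrix (Fin (m + 1)) (Fin (m + 1)) ℤ :=
  Matrix.vandermonde fun a => (s a : ℤ)

/-- a bound for the last row of the adjugate and for the determinant -/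
noncomputable def siz {m : ℕ} (s : Fin (m + 1) → ℕ) : ℕ :=
  (∑ a, ((mat s).adjugate (Fin.last m) a).natAbs) + (mat s).det.natAbs

lemma siz_le (m S : ℕ) : ∃ C₁ : ℕ, ∀ s : Fin (m + 1) → ℕ, (∀ a, s a ≤ S) → siz s ≤ C₁ := by
  have hfin : (Set.range fun f : Fin (m + 1) → Fin (S + 1) => siz fun a => (f a : ℕ)).Finite :=
    Set.finite_range _
  obtain ⟨C₁, hC⟩ := hfin.bddAbove
  refine ⟨C₁, fun s hs => hC ?_⟩
  refine ⟨fun a => ⟨s a, Nat.lt_succ_of_le (hs a)⟩, ?_⟩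
  rfl

lemma mat_apply {m : ℕ} (s : Fin (m + 1) → ℕ) (a j : Fin (m + 1)) :
    mat s a j = (s a : ℤ) ^ (j : ℕ) := by
  unfold mat
  rw [Matrix.vandermonde_apply]

lemma det_ne {m : ℕ} {s : Fin (m + 1) → ℕ} (hs : Function.Injective s) : (mat s).det ≠ 0 := by
  unfold mat
  refine Matrix.det_vandermonde_ne_zero_iff.mpr fun a b h => hs ?_
  exact_mod_cast h

lemma adj_mul {m : ℕ} (s : Fin (m + 1) → ℕ) (j : Fin (m + 1)) :
    ∑ a, (mat s).adjugate (Fin.last m) a * (s a : ℤ) ^ (j : ℕ) =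
      if Fin.last m = j then (mat s).det else 0 := by
  have h := congrFun (congrFun (Matrix.adjugate_mul (mat s)) (Fin.last m)) j
  rw [Matrix.mul_apply] at h
  simp only [mat_apply] at h
  rw [h, Matrix.smul_apply, Matrix.one_apply, smul_eq_mul]
  split_ifs <;> simp

/-- Taylor polynomial and remainder -/
lemma taylor {R : Type} [CommRing R] (m : ℕ) (φ : PowerSeries R) :
    φ = (∑ j : Fin (m + 1), PowerSeries.C (PowerSeries.coeff (j : ℕ) φ) *
      PowerSeries.X ^ (j : ℕ)) +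
      PowerSeries.X ^ (m + 1) * PowerSeries.mk fun i => PowerSeries.coeff (i + (m + 1)) φ := by
  ext n
  rw [map_add, map_sum, PowerSeries.coeff_X_pow_mul']
  simp only [PowerSeries.coeff_C_mul, PowerSeries.coeff_X_pow]
  by_cases hn : n < m + 1
  · rw [if_neg (show ¬ (m + 1 ≤ n) by omega), add_zero,
      Finset.sum_eq_single (⟨n, hn⟩ : Fin (m + 1))]
    · simp
    · intro b _ hb
      rw [if_neg, mul_zero]
      intro h
      exact hb (Fin.ext h.symm)
    · intro h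
      exact absurd (Finset.mem_univ _) h
  · rw [if_pos (by omega), PowerSeries.coeff_mk, Nat.sub_add_cancel (by omega),
      Finset.sum_eq_zero, zero_add]
    intro b _
    rw [if_neg, mul_zero]
    have := b.2
    omega

/-- the identity for the combination of the values -/
lemma comb {l : ℕ} [Fact l.Prime] (φ : PowerSeries ℤ_[l]) (m k : ℕ) (s : Fin (m + 1) → ℕ)
    (w : Fin (m + 1) → ℤ) (e : Fin (m + 1) → (PowerSeries ℤ_[l] →+* ℤ_[l]))
    (he : ∀ a, IsEv ((l : ℤ_[l]) ^ k * (s a : ℤ_[l])) (e a)) (hw : ∀ a, e a φ = (w a : ℤ_[l])) :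
    ∃ u : ℤ_[l], ((∑ a, (mat s).adjugate (Fin.last m) a * w a : ℤ) : ℤ_[l]) =
      (l : ℤ_[l]) ^ (k * m) * (PowerSeries.coeff m φ * (((mat s).det : ℤ) : ℤ_[l]) +
        (l : ℤ_[l]) ^ k * u) := by
  set ψ : PowerSeries ℤ_[l] := PowerSeries.mk fun i => PowerSeries.coeff (i + (m + 1)) φ with hψ
  set μ : Fin (m + 1) → ℤ := fun a => (mat s).adjugate (Fin.last m) a with hμ
  have hval : ∀ a, (w a : ℤ_[l]) =
      (∑ j : Fin (m + 1), PowerSeries.coeff (j : ℕ) φ *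
        ((l : ℤ_[l]) ^ k * (s a : ℤ_[l])) ^ (j : ℕ)) +
      ((l : ℤ_[l]) ^ k * (s a : ℤ_[l])) ^ (m + 1) * e a ψ := by
    intro a
    rw [← hw a]
    conv_lhs => rw [taylor m φ]
    rw [map_add, map_sum, map_mul, map_pow, (he a).1]
    congr 1
    refine Finset.sum_congr rfl fun j _ => ?_
    rw [map_mul, map_pow, (he a).1, (he a).2]
  refine ⟨∑ a, (μ a : ℤ_[l]) * (s a : ℤ_[l]) ^ (m + 1) * e a ψ, ?_⟩
  have h1 : ((∑ a, μ a * w a : ℤ) : ℤ_[l]) =
      ∑ a, ((∑ j : Fin (m + 1), PowerSeries.coeff (j : ℕ) φ * (l : ℤ_[l]) ^ (k * (j : ℕ)) *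
        ((μ a * (s a : ℤ) ^ (j : ℕ) : ℤ) : ℤ_[l])) +
      (l : ℤ_[l]) ^ (k * m) * ((l : ℤ_[l]) ^ k *
        ((μ a : ℤ_[l]) * (s a : ℤ_[l]) ^ (m + 1) * e a ψ))) := by
    rw [Int.cast_sum]
    refine Finset.sum_congr rfl fun a _ => ?_
    rw [Int.cast_mul, hval a, mul_add, Finset.mul_sum]
    congr 1
    · refine Finset.sum_congr rfl fun j _ => ?_
      push_cast
      ring
    · ring
  have h2 : ∑ a, ∑ j : Fin (m + 1), PowerSeries.coeff (j : ℕ) φ * (l : ℤ_[l]) ^ (k * (j : ℕ)) *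
        ((μ a * (s a : ℤ) ^ (j : ℕ) : ℤ) : ℤ_[l]) =
      (l : ℤ_[l]) ^ (k * m) * (PowerSeries.coeff m φ * (((mat s).det : ℤ) : ℤ_[l])) := by
    rw [Finset.sum_comm]
    have h3 : ∀ j : Fin (m + 1), ∑ a, PowerSeries.coeff (j : ℕ) φ *
        (l : ℤ_[l]) ^ (k * (j : ℕ)) * ((μ a * (s a : ℤ) ^ (j : ℕ) : ℤ) : ℤ_[l]) =
        PowerSeries.coeff (j : ℕ) φ * (l : ℤ_[l]) ^ (k * (j : ℕ)) *
          ((if Fin.last m = j then (mat s).det else 0 : ℤ) : ℤ_[l]) := by
      intro j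
      rw [← Finset.mul_sum, ← Int.cast_sum, hμ, adj_mul]
    rw [Finset.sum_congr rfl fun j _ => h3 j, Finset.sum_eq_single (Fin.last m)]
    · rw [if_pos rfl, Fin.val_last]
      ring
    · intro b _ hb
      rw [if_neg (fun h => hb h.symm)]
      simp
    · intro h
      exact absurd (Finset.mem_univ _) h
  rw [h1, Finset.sum_add_distrib, h2, ← Finset.mul_sum, ← Finset.mul_sum]
  ring

lemma two_le {l : ℕ} [Fact l.Prime] : 2 ≤ l := (Fact.out : l.Prime).two_le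

lemma lt_pow {l : ℕ} [Fact l.Prime] (n : ℕ) : n < l ^ n := Nat.lt_pow_self two_le

end Key1_aux

open Key1_aux in
theorem stmtKey1 : StmtKey1 := by
  intro l _ φ A m hA hc C S
  obtain ⟨C₁, hC₁⟩ := siz_le m S
  refine ⟨(PowerSeries.coeff m φ).valuation + C₁ + C₁ * C * (S + 1) ^ A + 1,
    fun k hk s hs hsS w e he hew hw => ?_⟩
  have hsz : siz s ≤ C₁ := hC₁ s fun a => (hsS a).2
  obtain ⟨u, hu⟩ := comb φ m k s w e he hew
  set R : ℤ := ∑ a, (mat s).adjugate (Fin.last m) a * w a with hR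
  have hl2 : 2 ≤ l := two_le
  have hl0 : 0 < l := by omega
  -- the size of `R`
  have hkA : C₁ * C * (S + 1) ^ A < l ^ k :=
    lt_of_le_of_lt (by omega) (lt_pow (l := l) k)
  have hwa : ∀ a, (w a).natAbs ≤ C * ((S + 1) * l ^ k) ^ A := by
    intro a
    have h1 := hw a
    have h2 : ((w a).natAbs : ℤ) ≤ ((C * (l ^ k * s a + 1) ^ A : ℕ) : ℤ) := by
      rw [Int.natCast_natAbs]
      push_cast
      exact h1
    have h3 : (w a).natAbs ≤ C * (l ^ k * s a + 1) ^ A := by exact_mod_cast h2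
    refine h3.trans (Nat.mul_le_mul_left _ (Nat.pow_le_pow_left ?_ _))
    have h4 : l ^ k * s a ≤ l ^ k * S := Nat.mul_le_mul_left _ (hsS a).2
    have h5 : 0 < l ^ k := Nat.pow_pos hl0
    calc l ^ k * s a + 1 ≤ l ^ k * S + l ^ k := by omega
      _ = (S + 1) * l ^ k := by ring
  have hRn : R.natAbs < l ^ (k * m) := by
    have h1 : R.natAbs ≤ ∑ a, ((mat s).adjugate (Fin.last m) a * w a).natAbs := by
      rw [hR]
      exact Int.natAbs_sum_le _ _
    have h2 : ∑ a, ((mat s).adjugate (Fin.last m) a * w a).natAbs ≤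
        (∑ a, ((mat s).adjugate (Fin.last m) a).natAbs) * (C * ((S + 1) * l ^ k) ^ A) := by
      rw [Finset.sum_mul]
      refine Finset.sum_le_sum fun a _ => ?_
      rw [Int.natAbs_mul]
      exact Nat.mul_le_mul_left _ (hwa a)
    have h3 : ∑ a, ((mat s).adjugate (Fin.last m) a).natAbs ≤ C₁ :=
      (Nat.le_add_right _ _).trans hsz
    calc R.natAbs ≤ C₁ * (C * ((S + 1) * l ^ k) ^ A) :=
          (h1.trans h2).trans (Nat.mul_le_mul_right _ h3)
      _ = (C₁ * C * (S + 1) ^ A) * (l ^ k) ^ A := by rw [mul_pow]; ring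
      _ < l ^ k * (l ^ k) ^ A := Nat.mul_lt_mul_of_pos_right hkA (Nat.pow_pos (Nat.pow_pos hl0))
      _ = l ^ (k * (A + 1)) := by rw [← pow_succ', ← pow_mul]
      _ ≤ l ^ (k * m) := Nat.pow_le_pow_right hl0 (Nat.mul_le_mul_left _ hA)
  -- `R = 0`
  have hdvd : (l : ℤ_[l]) ^ (k * m) ∣ (R : ℤ_[l]) := ⟨_, hu⟩
  have hdvd' : ((l : ℤ) ^ (k * m)) ∣ R := (PadicInt.pow_p_dvd_int_iff (k * m) R).1 hdvd
  have hR0 : R = 0 := by
    by_contra hne
    have h1 : ((l : ℤ) ^ (k * m)).natAbs ≤ R.natAbs :=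
      Nat.le_of_dvd (Int.natAbs_pos.2 hne) (Int.natAbs_dvd_natAbs.2 hdvd')
    rw [Int.natAbs_pow, Int.natAbs_natCast] at h1
    omega
  -- the conclusion
  have hlz : (l : ℤ_[l]) ≠ 0 := by
    have : ((l : ℕ) : ℤ_[l]) ≠ 0 := Nat.cast_ne_zero.2 (by omega)
    exact this
  rw [hR0, Int.cast_zero] at hu
  have h0 : PowerSeries.coeff m φ * (((mat s).det : ℤ) : ℤ_[l]) + (l : ℤ_[l]) ^ k * u = 0 := by
    rcases mul_eq_zero.1 hu.symm with h | h
    · exact absurd h (pow_ne_zero _ hlz)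
    · exact h
  have h1 : (l : ℤ_[l]) ^ k ∣ PowerSeries.coeff m φ * (((mat s).det : ℤ) : ℤ_[l]) :=
    ⟨-u, by linear_combination h0⟩
  obtain ⟨n, hn⟩ : ∃ n, k = (PowerSeries.coeff m φ).valuation + n :=
    ⟨k - (PowerSeries.coeff m φ).valuation, by omega⟩
  have hspec := PadicInt.unitCoeff_spec hc
  set v : ℕ := (PowerSeries.coeff m φ).valuation with hv
  have h2 : (l : ℤ_[l]) ^ n ∣ (((mat s).det : ℤ) : ℤ_[l]) := by
    rw [hspec, hn, pow_add, mul_assoc, (Units.isUnit _).dvd_mul_left,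
      mul_dvd_mul_iff_left (pow_ne_zero _ hlz)] at h1
    exact h1
  have h3 : ((l : ℤ) ^ n) ∣ (mat s).det := (PadicInt.pow_p_dvd_int_iff n _).1 h2
  have h4 : ((l : ℤ) ^ n).natAbs ≤ ((mat s).det).natAbs :=
    Nat.le_of_dvd (Int.natAbs_pos.2 (det_ne hs)) (Int.natAbs_dvd_natAbs.2 h3)
  rw [Int.natAbs_pow, Int.natAbs_natCast] at h4
  have h5 : ((mat s).det).natAbs ≤ C₁ := (Nat.le_add_left _ _).trans hsz
  have h6 : n < l ^ n := lt_pow (l := l) n
  omega

end Pool.Agent.Lib.MP_16285c_agN.Hit
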