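import Pool.Agent.Lib.MP_16285c_agN.Hit.Spec

/-!
# KEY2: interpolation of a polynomial with coefficients in the l-adic integers at integers
-/

set_option autoImplicit false

namespace Pool.Agent.Lib.MP_16285c_agN.Hit

theorem stmtKey2 : StmtKey2 := by
  intro l _ φ A hφ T hT w e he hw m
  by_cases hm : A < m
  · exact ⟨0, by simp [hφ m hm]⟩
  have hm' : m < A + 1 := by omega
  have hsum : φ = ∑ j : Fin (A + 1),
      PowerSeries.C (PowerSeries.coeff (j : ℕ) φ) * PowerSeries.X ^ (j : ℕ) := by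
    ext n
    rw [map_sum]
    simp only [PowerSeries.coeff_C_mul, PowerSeries.coeff_X_pow]
    by_cases hn : n < A + 1
    · rw [Finset.sum_eq_single (⟨n, hn⟩ : Fin (A + 1))]
      · simp
      · intro b _ hb
        rw [if_neg, mul_zero]
        intro h
        exact hb (Fin.ext h.symm)
      · intro h
        exact absurd (Finset.mem_univ _) h
    · rw [hφ n (by omega)]
      symm
      apply Finset.sum_eq_zero
      intro b _
      rw [if_neg, mul_zero]
      have := b.2
      omega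
  have hval : ∀ a, (w a : ℤ_[l]) =
      ∑ j : Fin (A + 1), PowerSeries.coeff (j : ℕ) φ * ((T a : ℤ) : ℤ_[l]) ^ (j : ℕ) := by
    intro a
    rw [← hw a]
    conv_lhs => rw [hsum]
    rw [map_sum]
    apply Finset.sum_congr rfl
    intro j _
    rw [map_mul, map_pow, (he a).1, (he a).2]
  obtain ⟨M, hM⟩ : ∃ M : Matrix (Fin (A + 1)) (Fin (A + 1)) ℤ, M = Matrix.vandermonde T :=
    ⟨_, rfl⟩
  have hdet : M.det ≠ 0 := by
    rw [hM]
    exact Matrix.det_vandermonde_ne_zero_iff.mpr hT
  have hMa : ∀ a j, M a j = T a ^ (j : ℕ) := by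
    intro a j
    rw [hM, Matrix.vandermonde_apply]
  have hadj : ∀ i j, ∑ a, M.adjugate i a * M a j = if i = j then M.det else 0 := by
    intro i j
    have h := congrFun (congrFun (Matrix.adjugate_mul M) i) j
    rw [Matrix.mul_apply] at h
    rw [h, Matrix.smul_apply, Matrix.one_apply, smul_eq_mul]
    split_ifs <;> simp
  have hkey : ∑ a, ((M.adjugate ⟨m, hm'⟩ a : ℤ) : ℤ_[l]) * (w a : ℤ_[l]) =
      ((M.det : ℤ) : ℤ_[l]) * PowerSeries.coeff m φ := by
    calc ∑ a, ((M.adjugate ⟨m, hm'⟩ a : ℤ) : ℤ_[l]) * (w a : ℤ_[l])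
        = ∑ a, ∑ j : Fin (A + 1), PowerSeries.coeff (j : ℕ) φ *
            (((M.adjugate ⟨m, hm'⟩ a * M a j : ℤ)) : ℤ_[l]) := by
          apply Finset.sum_congr rfl
          intro a _
          rw [hval a, Finset.mul_sum]
          apply Finset.sum_congr rfl
          intro j _
          rw [hMa]
          push_cast
          ring
      _ = ∑ j : Fin (A + 1), PowerSeries.coeff (j : ℕ) φ *
            ((∑ a, M.adjugate ⟨m, hm'⟩ a * M a j : ℤ) : ℤ_[l]) := by
          rw [Finset.sum_comm]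
          apply Finset.sum_congr rfl
          intro j _
          rw [Int.cast_sum, Finset.mul_sum]
      _ = ((M.det : ℤ) : ℤ_[l]) * PowerSeries.coeff m φ := by
          rw [Finset.sum_eq_single (⟨m, hm'⟩ : Fin (A + 1))]
          · rw [hadj, if_pos rfl, mul_comm]
          · intro b _ hb
            rw [hadj, if_neg (fun h => hb h.symm)]
            simp
          · intro h
            exact absurd (Finset.mem_univ _) h
  refine ⟨((∑ a, M.adjugate ⟨m, hm'⟩ a * w a : ℤ) : ℚ) / ((M.det : ℤ) : ℚ), ?_⟩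
  have hdq : (((M.det : ℤ) : ℚ) : ℚ_[l]) ≠ 0 := by
    rw [Rat.cast_intCast]
    exact_mod_cast hdet
  rw [Rat.cast_div, eq_div_iff hdq]
  have h2 : (((∑ a, ((M.adjugate ⟨m, hm'⟩ a : ℤ) : ℤ_[l]) * (w a : ℤ_[l]) : ℤ_[l])) : ℚ_[l]) =
      ((((M.det : ℤ) : ℤ_[l]) * PowerSeries.coeff m φ : ℤ_[l]) : ℚ_[l]) := by
    rw [hkey]
  rw [PadicInt.coe_mul, PadicInt.coe_intCast] at h2
  rw [Rat.cast_intCast, Rat.cast_intCast, mul_comm, ← h2, ← PadicInt.coe_intCast]
  push_cast
  rfl

end Pool.Agent.Lib.MP_16285c_agN.Hit
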