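import Pool.Agent.Lib.MP_16285c_agN.Hit.Spec

/-!
# Hilbert irreducibility, the one-variable case: `StmtLine`
-/

set_option autoImplicit false

noncomputable section

namespace Pool.Agent.Lib.MP_16285c_agN.Hit

open Polynomial

namespace Line_aux

variable {l : ℕ} [Fact l.Prime]

/-- Evaluation of `ℤ[s]` at `T`, seen in `ℤ_l`, is the evaluation of the power series. -/
theorem comp_eq {T : ℤ} {e : PowerSeries ℤ_[l] →+* ℤ_[l]} (he : IsEv ((T : ℤ) : ℤ_[l]) e) :
    (Int.castRingHom ℤ_[l]).comp (Polynomial.evalRingHom T) = e.comp (toPS l) := by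
  apply Polynomial.ringHom_ext
  · intro a
    simp only [RingHom.comp_apply, toPS, Polynomial.coe_evalRingHom, Polynomial.eval_C,
      Polynomial.coe_mapRingHom, Polynomial.map_C, Polynomial.coeToPowerSeries.ringHom_apply,
      Polynomial.coe_C]
    rw [he.2]
  · simp only [RingHom.comp_apply, toPS, Polynomial.coe_evalRingHom, Polynomial.eval_X,
      Polynomial.coe_mapRingHom, Polynomial.map_X, Polynomial.coeToPowerSeries.ringHom_apply,
      Polynomial.coe_X]
    rw [he.1]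
    rfl

/-- The image of the product under the evaluation. -/
theorem map_prod_lin {D : ℕ} (I : Finset (Fin D)) (y : Fin D → PowerSeries ℤ_[l])
    (e : PowerSeries ℤ_[l] →+* ℤ_[l]) :
    (∏ i ∈ I, (X - Polynomial.C (y i))).map e = ∏ i ∈ I, (X - Polynomial.C (e (y i))) := by
  rw [Polynomial.map_prod]
  refine Finset.prod_congr rfl fun i _ => ?_
  rw [Polynomial.map_sub, Polynomial.map_X, Polynomial.map_C]

/-- A non-irreducible specialisation gives a hit. -/
theorem hit (hE : StmtEval) (hG : StmtGauss) {D : ℕ} {f : Polynomial (Polynomial ℤ)}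
    {y : Fin D → PowerSeries ℤ_[l]} {A C : ℕ} (hD : 0 < D) (hf : f.Monic)
    (hfy : f.map (toPS l) = ∏ i, (X - Polynomial.C (y i)))
    (hB : ∀ (T : ℤ) (B : Polynomial ℤ), B.Monic → B ∣ f.map (Polynomial.evalRingHom T) →
      ∀ j, |B.coeff j| ≤ (C : ℤ) * (|T| + 1) ^ A)
    (jI : Finset (Fin D) → ℕ) {k s : ℕ} (hk : 1 ≤ k)
    (hn : ¬ Irreducible (f.map (Polynomial.evalRingHom ((l : ℤ) ^ k * (s : ℤ))))) :
    ∃ I : Finset (Fin D), I.Nonempty ∧ I ≠ Finset.univ ∧
      Hits ((∏ i ∈ I, (X - Polynomial.C (y i))).coeff (jI I)) A C k s := by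
  set T : ℤ := (l : ℤ) ^ k * (s : ℤ) with hT
  have hTn : ‖((T : ℤ) : ℤ_[l])‖ < 1 := by
    rw [PadicInt.norm_int_lt_one_iff_dvd]
    rw [hT]
    exact Dvd.dvd.mul_right (dvd_pow_self _ (by omega)) _
  obtain ⟨e, he⟩ := hE l _ hTn
  have hP : (f.map (Polynomial.evalRingHom T)).map (Int.castRingHom ℤ_[l]) =
      ∏ i, (X - Polynomial.C (e (y i))) := by
    rw [Polynomial.map_map, comp_eq he, ← Polynomial.map_map, hfy, map_prod_lin]
  obtain ⟨B, I, hBm, hBd, hIn, hIu, hBI⟩ := hG l D _ (fun i => e (y i))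
    (hf.map (Polynomial.evalRingHom T)) hD hP hn
  refine ⟨I, hIn, hIu, B.coeff (jI I), e, ?_, ?_, ?_⟩
  · have hc : ((T : ℤ) : ℤ_[l]) = (l : ℤ_[l]) ^ k * (s : ℤ_[l]) := by
      rw [hT]; push_cast; rfl
    rw [← hc]; exact he
  · have h1 : e ((∏ i ∈ I, (X - Polynomial.C (y i))).coeff (jI I)) =
        ((∏ i ∈ I, (X - Polynomial.C (y i))).map e).coeff (jI I) := by
      rw [Polynomial.coeff_map]
    rw [h1, map_prod_lin, ← hBI, Polynomial.coeff_map]
    rfl
  · have h2 := hB T B hBm hBd (jI I)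
    have h3 : |T| = T := abs_of_nonneg (by rw [hT]; positivity)
    rw [h3] at h2
    exact h2

end Line_aux

open Line_aux in
/-- **LINE.** -/
theorem stmtLine (hE : StmtEval) (hC : StmtCount) (hG : StmtGauss) : StmtLine := by
  classical
  intro l _ D f y A C hD hf hfy hB hI g hg
  by_contra hcon
  push Not at hcon
  have hl : (l : ℤ) ≠ 0 := by exact_mod_cast (Fact.out : l.Prime).ne_zero
  have hI' : ∀ I : Finset (Fin D), ∃ j : ℕ, I.Nonempty → I ≠ Finset.univ →
      NotRat A ((∏ i ∈ I, (X - Polynomial.C (y i))).coeff j) := by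
    intro I
    by_cases h1 : I.Nonempty ∧ I ≠ Finset.univ
    · obtain ⟨j, hj⟩ := hI I h1.1 h1.2
      exact ⟨j, fun _ _ => hj⟩
    · exact ⟨0, fun a b => absurd ⟨a, b⟩ h1⟩
  choose jI hjI using hI'
  have hM' : ∀ I : Finset (Fin D), ∃ M : ℕ, I.Nonempty → I ≠ Finset.univ → ∀ S : ℕ,
      ∃ k₀ : ℕ, ∀ k ≥ k₀, ∀ H : Finset ℕ, (∀ s ∈ H, 1 ≤ s ∧ s ≤ S ∧
        Hits ((∏ i ∈ I, (X - Polynomial.C (y i))).coeff (jI I)) A C k s) → H.card ≤ M := by
    intro I
    by_cases h1 : I.Nonempty ∧ I ≠ Finset.univ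
    · obtain ⟨M, hM⟩ := hC l _ A (hjI I h1.1 h1.2) C
      exact ⟨M, fun _ _ => hM⟩
    · exact ⟨0, fun a b => absurd ⟨a, b⟩ h1⟩
  choose M hM using hM'
  set S : ℕ := ∑ I, M I + g.natDegree + 1 with hS
  have hk' : ∀ I : Finset (Fin D), ∃ k₀ : ℕ, I.Nonempty → I ≠ Finset.univ →
      ∀ k ≥ k₀, ∀ H : Finset ℕ, (∀ s ∈ H, 1 ≤ s ∧ s ≤ S ∧
        Hits ((∏ i ∈ I, (X - Polynomial.C (y i))).coeff (jI I)) A C k s) → H.card ≤ M I := by
    intro I
    by_cases h1 : I.Nonempty ∧ I ≠ Finset.univ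
    · obtain ⟨k, hk⟩ := hM I h1.1 h1.2 S
      exact ⟨k, fun _ _ => hk⟩
    · exact ⟨0, fun a b => absurd ⟨a, b⟩ h1⟩
  choose k₀ hk₀ using hk'
  set k : ℕ := ∑ I, k₀ I + 1 with hk
  have hkI : ∀ I, k₀ I ≤ k := fun I => by
    have := Finset.single_le_sum (f := k₀) (fun i _ => Nat.zero_le _) (Finset.mem_univ I)
    omega
  set Z : Finset ℕ := (Finset.Icc 1 S).filter fun s => g.eval ((l : ℤ) ^ k * (s : ℤ)) = 0 with hZ
  set H : Finset (Fin D) → Finset ℕ := fun I => (Finset.Icc 1 S).filter fun s =>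
    I.Nonempty ∧ I ≠ Finset.univ ∧
      Hits ((∏ i ∈ I, (X - Polynomial.C (y i))).coeff (jI I)) A C k s with hH
  have hcov : Finset.Icc 1 S ⊆ Z ∪ Finset.univ.biUnion H := by
    intro s hs
    by_cases h0 : g.eval ((l : ℤ) ^ k * (s : ℤ)) = 0
    · exact Finset.mem_union_left _ (Finset.mem_filter.mpr ⟨hs, h0⟩)
    · have hn : ¬ Irreducible (f.map (Polynomial.evalRingHom ((l : ℤ) ^ k * (s : ℤ)))) :=
        fun hirr => h0 (hcon _ hirr)
      obtain ⟨I, h1, h2, h3⟩ := hit hE hG hD hf hfy hB jI (k := k) (s := s) (by omega) hn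
      refine Finset.mem_union_right _ (Finset.mem_biUnion.mpr ⟨I, Finset.mem_univ _, ?_⟩)
      exact Finset.mem_filter.mpr ⟨hs, h1, h2, h3⟩
  have hZc : Z.card ≤ g.natDegree := by
    have hinj : Function.Injective fun s : ℕ => (l : ℤ) ^ k * (s : ℤ) := by
      intro a b hab
      have := mul_left_cancel₀ (pow_ne_zero k hl) hab
      exact_mod_cast this
    rw [← Finset.card_image_of_injective Z hinj]
    refine (Finset.card_le_card (t := g.roots.toFinset) ?_).trans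
      ((Multiset.toFinset_card_le _).trans (Polynomial.card_roots' g))
    intro x hx
    obtain ⟨s, hs, rfl⟩ := Finset.mem_image.mp hx
    rw [Multiset.mem_toFinset, Polynomial.mem_roots hg]
    exact (Finset.mem_filter.mp hs).2
  have hHc : ∀ I, (H I).card ≤ M I := by
    intro I
    by_cases h1 : I.Nonempty ∧ I ≠ Finset.univ
    · refine hk₀ I h1.1 h1.2 k (hkI I) (H I) fun s hs => ?_
      have h2 := Finset.mem_filter.mp hs
      have h3 := Finset.mem_Icc.mp h2.1
      exact ⟨h3.1, h3.2, h2.2.2.2⟩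
    · have : H I = ∅ := by
        rw [hH]
        refine Finset.filter_eq_empty_iff.mpr fun s _ h => h1 ⟨h.1, h.2.1⟩
      rw [this]; simp
  have h1 : S ≤ Z.card + ∑ I, (H I).card := by
    calc S = (Finset.Icc 1 S).card := by simp
      _ ≤ (Z ∪ Finset.univ.biUnion H).card := Finset.card_le_card hcov
      _ ≤ Z.card + (Finset.univ.biUnion H).card := Finset.card_union_le _ _
      _ ≤ Z.card + ∑ I, (H I).card := Nat.add_le_add_left Finset.card_biUnion_le _
  have h2 : ∑ I, (H I).card ≤ ∑ I, M I := Finset.sum_le_sum fun I _ => hHc I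
  omega

end Pool.Agent.Lib.MP_16285c_agN.Hit
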