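import Pool.Agent.Lib.MP_16285c_agN.Hit.Spec

/-!
# PRIM: descent of a monic irreducible polynomial along a finite extension of the constants
-/

set_option autoImplicit false

namespace Pool.Agent.Lib.MP_16285c_agN.Hit
namespace Prim_aux

open Polynomial nonZeroDivisors

/-- A primitive element of the form `θ + n α`. -/
private theorem exists_nat (K₀ L : Type) [Field K₀] [Field L] [Algebra K₀ L]
    [FiniteDimensional K₀ L] [CharZero K₀] (θ α : L)
    (hgen : ∀ φ ψ : L →ₐ[K₀] AlgebraicClosure L, φ θ = ψ θ → φ α = ψ α → φ = ψ) :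
    ∃ n : ℕ, (minpoly K₀ (θ + n * α)).natDegree = Module.finrank K₀ L := by
  classical
  have : CharZero (AlgebraicClosure L) :=
    charZero_of_injective_algebraMap (algebraMap K₀ (AlgebraicClosure L)).injective
  let S : Set ℕ := ⋃ p : (L →ₐ[K₀] AlgebraicClosure L) × (L →ₐ[K₀] AlgebraicClosure L),
    {n : ℕ | p.1 ≠ p.2 ∧ p.1 (θ + n * α) = p.2 (θ + n * α)}
  have hS : S.Finite := by
    refine Set.finite_iUnion fun p => Set.Subsingleton.finite ?_
    rintro n ⟨hne, hn⟩ m ⟨-, hm⟩
    simp only [map_add, map_mul, map_natCast] at hn hm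
    by_contra hnm
    have h1 : ((n : AlgebraicClosure L) - m) * (p.1 α - p.2 α) = 0 := by
      linear_combination hn - hm
    have h2 : (n : AlgebraicClosure L) - m ≠ 0 := sub_ne_zero.mpr (by exact_mod_cast hnm)
    have h3 : p.1 α = p.2 α := sub_eq_zero.mp ((mul_eq_zero.mp h1).resolve_left h2)
    have h4 : p.1 θ = p.2 θ := by
      linear_combination hn - (n : AlgebraicClosure L) * h3
    exact hne (hgen _ _ h4 h3)
  obtain ⟨n, hn⟩ := hS.exists_notMem
  refine ⟨n, ?_⟩
  rw [← Field.primitive_element_iff_minpoly_natDegree_eq,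
    Field.primitive_element_iff_algHom_eq_of_eval' K₀ (AlgebraicClosure L)
      (fun x => IsAlgClosed.splits _)]
  intro φ ψ hφψ
  by_contra hne
  exact hn (Set.mem_iUnion.mpr ⟨(φ, ψ), hne, hφψ⟩)

private theorem core (A B K₀ KK : Type) [CommRing A] [IsDomain A] [IsIntegrallyClosed A]
    [CommRing B] [IsDomain B] [IsIntegrallyClosed B] [Algebra A B] [Algebra.IsIntegral A B]
    [Field K₀] [Field KK] [Algebra A K₀] [IsFractionRing A K₀] [Algebra B KK]
    [IsFractionRing B KK] [Algebra K₀ KK] [Algebra A KK] [IsScalarTower A K₀ KK]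
    [IsScalarTower A B KK] [FiniteDimensional K₀ KK] [CharZero K₀]
    (F : B[X]) (hm : F.Monic) (hi : Irreducible F) (a : B)
    (ha : ∀ (Ω : Type) [Field Ω] (f g : B →+* Ω),
      f.comp (algebraMap A B) = g.comp (algebraMap A B) → f a = g a → f = g) :
    ∃ (H : A[X]) (n : ℕ), H.Monic ∧ Irreducible H ∧
      H.natDegree = F.natDegree * Module.finrank K₀ KK ∧
      F.comp (X - C (n * a)) ∣ H.map (algebraMap A B) := by
  have hmK : (F.map (algebraMap B KK)).Monic := hm.map _
  have hiK : Irreducible (F.map (algebraMap B KK)) :=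
    (Polynomial.Monic.irreducible_iff_irreducible_map_fraction_map hm).mp hi
  have : Fact (Irreducible (F.map (algebraMap B KK))) := ⟨hiK⟩
  let L := AdjoinRoot (F.map (algebraMap B KK))
  let θ : L := AdjoinRoot.root (F.map (algebraMap B KK))
  have : FiniteDimensional KK L := (AdjoinRoot.powerBasis hmK.ne_zero).finite
  have : FiniteDimensional K₀ L := FiniteDimensional.trans K₀ KK L
  have hrank : Module.finrank K₀ L = F.natDegree * Module.finrank K₀ KK := by
    rw [← Module.finrank_mul_finrank K₀ KK L, (AdjoinRoot.powerBasis hmK.ne_zero).finrank,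
      AdjoinRoot.powerBasis_dim, hm.natDegree_map, mul_comm]
  have hcomm : ∀ x : A, algebraMap B L (algebraMap A B x) = algebraMap K₀ L (algebraMap A K₀ x) := by
    intro x
    rw [IsScalarTower.algebraMap_apply B KK L, ← IsScalarTower.algebraMap_apply A B KK,
      IsScalarTower.algebraMap_apply K₀ KK L, ← IsScalarTower.algebraMap_apply A K₀ KK]
  have hgen : ∀ φ ψ : L →ₐ[K₀] AlgebraicClosure L, φ θ = ψ θ →
      φ (algebraMap B L a) = ψ (algebraMap B L a) → φ = ψ := by
    intro φ ψ h1 h2
    have hB : φ.toRingHom.comp (algebraMap B L) = ψ.toRingHom.comp (algebraMap B L) := by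
      refine ha _ _ _ ?_ h2
      ext x
      simp only [AlgHom.toRingHom_eq_coe, RingHom.coe_comp, RingHom.coe_coe, Function.comp_apply,
        hcomm, AlgHom.commutes]
    have hKK : φ.toRingHom.comp (algebraMap KK L) = ψ.toRingHom.comp (algebraMap KK L) := by
      refine IsLocalization.ringHom_ext (B⁰) ?_
      rw [RingHom.comp_assoc, RingHom.comp_assoc, ← IsScalarTower.algebraMap_eq B KK L, hB]
    have hL : φ.toRingHom = ψ.toRingHom := AdjoinRoot.ringHom_ext hKK h1
    exact AlgHom.coe_ringHom_injective hL
  obtain ⟨n, hn⟩ := exists_nat K₀ L θ (algebraMap B L a) hgen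
  set β : L := θ + n * algebraMap B L a with hβ
  have hroot : aeval θ F = 0 := by
    have := AdjoinRoot.eval₂_root (F.map (algebraMap B KK))
    rw [eval₂_map] at this
    rw [aeval_def]
    exact this
  have hβF : aeval β (F.comp (X - C (n * a))) = 0 := by
    rw [aeval_comp]
    simp only [map_sub, aeval_X, aeval_C, map_mul, map_natCast, hβ, add_sub_cancel_right, hroot]
  have hmF' : (F.comp (X - C (n * a))).Monic := hm.comp_X_sub_C _
  have hiF' : Irreducible (F.comp (X - C ((n : B) * a))) := by
    have h := (MulEquiv.irreducible_iff (Polynomial.algEquivAevalXAddC (-((n : B) * a)))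
      (x := F)).mpr hi
    simpa [Polynomial.algEquivAevalXAddC_apply, comp_eq_aeval, sub_eq_add_neg] using h
  have : FaithfulSMul B KK := inferInstance
  have hBL : Function.Injective (algebraMap B L) := by
    rw [IsScalarTower.algebraMap_eq B KK L]
    exact (algebraMap KK L).injective.comp (IsFractionRing.injective B KK)
  have hAL : Function.Injective (algebraMap A L) := by
    rw [IsScalarTower.algebraMap_eq A K₀ L]
    exact (algebraMap K₀ L).injective.comp (IsFractionRing.injective A K₀)
  have hintB : IsIntegral B β := ⟨_, hmF', by rw [← aeval_def]; exact hβF⟩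
  have : IsScalarTower A B L := IsScalarTower.of_algebraMap_eq fun x => by
    rw [hcomm, ← IsScalarTower.algebraMap_apply A K₀ L]
  have hintA : IsIntegral A β := isIntegral_trans β hintB
  refine ⟨minpoly A β, n, minpoly.monic hintA, minpoly.irreducible hintA, ?_, ?_⟩
  · rw [← hrank, ← hn, minpoly.isIntegrallyClosed_eq_field_fractions' K₀ hintA,
      (minpoly.monic hintA).natDegree_map]
  · have : Module.IsTorsionFree B L := by
      rw [← faithfulSMul_iff_algebraMap_injective] at hBL
      infer_instance
    have h1 : minpoly B β ∣ F.comp (X - C (n * a)) := minpoly.isIntegrallyClosed_dvd hintB hβF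
    have h2 : F.comp (X - C (n * a)) ∣ minpoly B β :=
      (hiF'.dvd_iff.mp h1).elim (fun h => absurd h (minpoly.irreducible hintB).not_isUnit)
        (fun h => h.dvd)
    refine h2.trans (minpoly.isIntegrallyClosed_dvd hintB ?_)
    rw [aeval_map_algebraMap, minpoly.aeval]

end Prim_aux

open Polynomial in
attribute [local instance] MvPolynomial.algebraMvPolynomial FractionRing.liftAlgebra in
theorem stmtPrim : StmtPrim := by
  intro k K _ _ _ _ _ σ _ F hm hi
  have : CharZero K := charZero_of_injective_algebraMap (algebraMap k K).injective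
  obtain ⟨α, hα⟩ := Field.exists_primitive_element k K
  have hadj : Algebra.adjoin k {α} = ⊤ := by
    rw [← IntermediateField.adjoin_simple_toSubalgebra_of_isAlgebraic (IsAlgebraic.of_finite k α),
      hα, IntermediateField.top_toSubalgebra]
  have hrank : Module.finrank (FractionRing (MvPolynomial σ k)) (FractionRing (MvPolynomial σ K)) =
      Module.finrank k K := by
    rw [Module.finrank, Module.finrank, Algebra.IsAlgebraic.rank_fractionRing_mvPolynomial,
      Cardinal.toNat_lift]
  have : FiniteDimensional (FractionRing (MvPolynomial σ k)) (FractionRing (MvPolynomial σ K)) := by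
    refine Module.finite_of_finrank_pos ?_
    rw [hrank]
    exact Module.finrank_pos
  have : CharZero (FractionRing (MvPolynomial σ k)) :=
    charZero_of_injective_algebraMap (algebraMap k (FractionRing (MvPolynomial σ k))).injective
  have : Algebra.IsIntegral (MvPolynomial σ k) (MvPolynomial σ K) := inferInstance
  obtain ⟨H, n, h1, h2, h3, h4⟩ := Prim_aux.core (MvPolynomial σ k) (MvPolynomial σ K)
    (FractionRing (MvPolynomial σ k)) (FractionRing (MvPolynomial σ K)) F hm hi
    (MvPolynomial.C α) (by
      intro Ω _ f g hfg hα'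
      refine MvPolynomial.ringHom_ext' ?_ ?_
      · let f' : K →+* Ω := f.comp MvPolynomial.C
        let g' : K →+* Ω := g.comp MvPolynomial.C
        have hk : ∀ x : k, f' (algebraMap k K x) = g' (algebraMap k K x) := by
          intro x
          have h := DFunLike.congr_fun hfg (MvPolynomial.C x)
          simp only [RingHom.comp_apply, MvPolynomial.algebraMap_def, MvPolynomial.map_C] at h
          exact h
        ext x
        have hx : x ∈ Algebra.adjoin k {α} := hadj ▸ Algebra.mem_top
        change f' x = g' x
        induction hx using Algebra.adjoin_induction with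
        | mem y hy => rw [Set.mem_singleton_iff.mp hy]; exact hα'
        | algebraMap r => exact hk r
        | add y z _ _ hy hz => rw [map_add, map_add, hy, hz]
        | mul y z _ _ hy hz => rw [map_mul, map_mul, hy, hz]
      · intro i
        have h := DFunLike.congr_fun hfg (MvPolynomial.X i)
        simp only [RingHom.comp_apply, MvPolynomial.algebraMap_def, MvPolynomial.map_X] at h
        exact h)
  refine ⟨H, n * α, h1, h2, by rw [h3, hrank], ?_⟩
  have h5 : (MvPolynomial.C ((n : K) * α) : MvPolynomial σ K) = (n : MvPolynomial σ K) * MvPolynomial.C α := by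
    rw [map_mul, map_natCast]
  rw [h5]
  exact h4

end Pool.Agent.Lib.MP_16285c_agN.Hit
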