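import Mathlib

/-!
# Hilbert's irreducibility theorem for finitely generated fields of characteristic 0: statements

Every `StmtX : Prop` below is to be proved as `theorem stmtX : StmtX` in `Hit/X.lean` (with the `StmtY` named under
Uses as explicit hypotheses). The docstrings contain complete proofs.

Notation: `F ∈ R[t_σ][Y]` is `F : Polynomial (MvPolynomial σ R)`; `F(x, Y)` is `F.map (MvPolynomial.eval x)`.

Plan. Part Z treats `ℤ`: `F ∈ ℤ[t][Y]` monic, irreducible, `G ≠ 0`; there is `x ∈ ℤ^σ` with `F(x, Y)` irreducible and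
`G(x) ≠ 0`. After a translation `F(0, Y)` is separable; at a suitable prime `l` it splits over `ℤ_l` with distinct roots
modulo `l` (`StmtSplit`), and `F(s v, Y) = ∏ (Y - y_i)` with `y_i ∈ ℤ_l[v][[s]]` (`StmtHensel`). For every proper
non-empty set `I` of indices some coefficient of `∏_{i ∈ I} (Y - y_i)` is not in `ℚ[v][s]` (`StmtIrrat`), and this
remains so for a suitable `v ∈ ℤ^σ` (`StmtDir`). Such a power series takes few integral values of polynomial size at
the integers `T = l^k s`, `1 ≤ s ≤ S` (`StmtCount`). Part K goes from `ℤ` to `ℚ(z_1, …, z_m)` and to its finite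
extensions.
-/

set_option autoImplicit false

noncomputable section

namespace Pool.Agent.Lib.MP_16285c_agN.Hit

open Polynomial

/-! ## Part Z -/

/-- **HENSEL.** Let `P ∈ R[[s]][Y]` be monic with `P mod s = ∏ (Y - a_i)`, all differences `a_i - a_j` (`i ≠ j`) units of
`R`. Then `P = ∏ (Y - y_i)` with `y_i ∈ R[[s]]`, `y_i(0) = a_i`.

Proof. `R[[s]]` is complete for the ideal `(s)` (Mathlib: the instance
`IsAdicComplete (Ideal.span {PowerSeries.X}) (PowerSeries R)` of `Mathlib/RingTheory/AdicCompletion/Completeness.lean`), so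
it is Henselian for this ideal (`IsAdicComplete.henselianRing`). `P(a_i)` has constant coefficient `0`, i.e. lies in `(s)`;
`P'(a_i)` has constant coefficient `∏_{j ≠ i} (a_i - a_j)`, a unit, so its class modulo `(s)` is a unit (a power series with
unit constant coefficient is a unit: `PowerSeries.isUnit_iff_constantCoeff`). So there is a root `y_i ∈ R[[s]]` of `P` with
`y_i - a_i ∈ (s)`. For `i ≠ j` the difference `y_i - y_j` has the unit constant coefficient `a_i - a_j`, so it is a unit, so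
`Y - y_i` and `Y - y_j` are coprime (`Polynomial.isCoprime_X_sub_C_of_isUnit_sub`); hence `∏ (Y - y_i)` divides `P`
(`Finset.prod_dvd_of_coprime`, `Polynomial.dvd_iff_isRoot`); both are monic, and
`natDegree P = natDegree (P mod s) = D`: they are equal (`Polynomial.eq_of_monic_of_dvd_of_natDegree_le`). -/
def StmtHensel : Prop :=
  ∀ (R : Type) [CommRing R] (D : ℕ) (P : Polynomial (PowerSeries R)) (a : Fin D → R), P.Monic →
    P.map PowerSeries.constantCoeff = ∏ i, (X - C (a i)) → (∀ i j, i ≠ j → IsUnit (a i - a j)) →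
    ∃ y : Fin D → PowerSeries R, (∀ i, PowerSeries.constantCoeff (y i) = a i) ∧
      P = ∏ i, (X - C (y i))

/-- **SPLITTING PRIME.** A monic `f ∈ ℤ[Y]`, separable over `ℚ`, is a product of linear factors over `ℤ_l`, with roots
distinct modulo `l`, for a suitable prime `l`.

Proof. Let `E` be the splitting field of `f` over `ℚ`, `θ ∈ E` an integral primitive element (`Field.exists_primitive_element`,
multiply by an integer), `g ∈ ℤ[Y]` its minimal polynomial over `ℤ` (monic, irreducible over `ℚ`, so separable over `ℚ`).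
Bezout: `u g + v g' = δ₁` and `u₂ f + v₂ f' = δ₂` with `u, v, u₂, v₂ ∈ ℤ[Y]` and non-zero integers `δ₁, δ₂` (clear
denominators). The values `g(j)`, `j ∈ ℤ`, have prime divisors `l` not dividing `δ₁ δ₂`: otherwise, with `N = δ₁ δ₂` and
`g(0) = c` (if `c = 0` then `g = Y`, `E = ℚ` and every prime has the root `0`; or translate: choose `j₀` with
`g(j₀) ≠ 0`), the integer `g(j₀ + N c' t) / c'` with `c' = g(j₀)` is `≡ 1 mod N` for every integer `t`, and it is not `± 1`
for `t` large; so it has a prime divisor `l`, prime to `N`. So `g(j) ≡ 0 mod l` and `v(j) g'(j) ≡ δ₁`, so `g'(j)` is a unit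
of `ℤ_l`: by Hensel (`hensels_lemma`) `g` has a root `b ∈ ℤ_l`. The homomorphism `E = ℚ(θ) → ℚ_l`, `θ ↦ b`, maps
`f = ∏ (Y - α_i)` to a factorisation of `f` over `ℚ_l`; the images of the `α_i` are integral over `ℤ_l` (`f` is monic),
so they lie in `ℤ_l` (`IsIntegrallyClosed ℤ_[l]`); number them by `Fin f.natDegree`. With `a_i` the roots:
`v₂(a_i) f'(a_i) = δ₂` is a unit of `ℤ_l`, and `f'(a_i) = ∏_{j ≠ i} (a_i - a_j)`: all the differences are units. -/
def StmtSplit : Prop :=
  ∀ f : Polynomial ℤ, f.Monic → (f.map (Int.castRingHom ℚ)).Separable →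
    ∃ (l : ℕ) (_ : Fact l.Prime) (a : Fin f.natDegree → ℤ_[l]),
      f.map (Int.castRingHom ℤ_[l]) = ∏ i, (X - C (a i)) ∧ ∀ i j, i ≠ j → IsUnit (a i - a j)

/-- `e` is the evaluation `φ ↦ φ(T)` of power series over `ℤ_l` at `T`. -/
def IsEv {l : ℕ} [Fact l.Prime] (T : ℤ_[l]) (e : PowerSeries ℤ_[l] →+* ℤ_[l]) : Prop :=
  e PowerSeries.X = T ∧ ∀ c : ℤ_[l], e (PowerSeries.C c) = c

/-- **EVALUATION.** For `T ∈ l ℤ_l` there is a ring homomorphism `ℤ_l[[s]] → ℤ_l` which is the identity on constants and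
maps `s` to `T`.

Proof. `‖T‖ < 1`. The series `∑ c_n T^n` converges in `ℤ_l` (summable: `‖c_n T^n‖ ≤ ‖T‖^n`, the space is complete:
`Summable.of_norm_bounded`, `summable_geometric_of_lt_one`); `e φ := ∑' n, coeff n φ * T ^ n`. Additive:
`Summable.tsum_add`; multiplicative: Cauchy product (`tsum_mul_tsum_eq_tsum_sum_antidiagonal_of_summable_norm`,
`PowerSeries.coeff_mul`); `e 1 = 1`, `e X = T`, `e (C c) = c`: `tsum_eq_single`. -/
def StmtEval : Prop :=
  ∀ (l : ℕ) [Fact l.Prime] (T : ℤ_[l]), ‖T‖ < 1 → ∃ e : PowerSeries ℤ_[l] →+* ℤ_[l], IsEv T e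

/-- **KEY1.** Let `φ = ∑ c_m s^m ∈ ℤ_l[[s]]` with `c_m ≠ 0` for some `m > A`. For `k ≥ k₀(C, S)` there are no `m + 1` distinct
integers `s_0, …, s_m ∈ [1, S]` for which the values `φ(l^k s_a)` are integers of absolute value `≤ C (l^k s_a + 1)^A`.

Proof. Let `M` be the Vandermonde matrix `M a j = s_a^j` (`a, j ≤ m`; `Matrix.vandermonde`), `V = det M ≠ 0`
(`Matrix.det_vandermonde_ne_zero_iff`), `μ_a = (adj M)_{m a} ∈ ℤ`. As `adj M · M = V · 1`: `∑ μ_a s_a^j = 0` for `j < m` and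
`= V` for `j = m`. There is a bound `C₁ ≥ 1` for all `|μ_a|` and `|V|` which depends only on `m, S` (finitely many
`s : Fin (m + 1) → {1, …, S}`). Let `w_a` be the values, `R = ∑ μ_a w_a ∈ ℤ`. Write
`φ = ∑_{j ≤ m} c_j s^j + s^(m + 1) ψ` (`PowerSeries.eq_X_pow_mul_shift_add_trunc`); applying the evaluations,
`w_a = ∑_{j ≤ m} c_j (l^k s_a)^j + (l^k s_a)^(m + 1) ψ(l^k s_a)`, so in `ℤ_l`
`R = l^(k m) (c_m V + l^k u)` with `u = ∑ μ_a s_a^(m + 1) ψ(l^k s_a) ∈ ℤ_l`.
So `l^(k m)` divides `R` in `ℤ_l`, so in `ℤ` (`PadicInt.pow_p_dvd_int_iff`), while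
`|R| ≤ (m + 1) C₁ C (l^k S + 1)^A ≤ (m + 1) C₁ C (2 S + 1)^A l^(k A)`. For `k` large, as `m > A`, this is `< l^(k m)`: so
`R = 0`, `c_m V = - l^k u`, so `l^k` divides `c_m V` in `ℤ_l`, `‖c_m‖ ‖V‖ ≤ l^(-k)`. But `‖V‖ ≥ 1 / |V| ≥ 1 / C₁` for the
non-zero integer `V`, so `‖c_m‖ ≤ C₁ l^(-k)`: false for `k` large, as `c_m ≠ 0`. -/
def StmtKey1 : Prop :=
  ∀ (l : ℕ) [Fact l.Prime] (φ : PowerSeries ℤ_[l]) (A m : ℕ), A < m → PowerSeries.coeff m φ ≠ 0 →
    ∀ C S : ℕ, ∃ k₀ : ℕ, ∀ k ≥ k₀, ∀ s : Fin (m + 1) → ℕ, Function.Injective s →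
      (∀ a, 1 ≤ s a ∧ s a ≤ S) → ∀ (w : Fin (m + 1) → ℤ)
        (e : Fin (m + 1) → (PowerSeries ℤ_[l] →+* ℤ_[l])),
      (∀ a, IsEv ((l : ℤ_[l]) ^ k * (s a : ℤ_[l])) (e a)) → (∀ a, e a φ = (w a : ℤ_[l])) →
      (∀ a, |w a| ≤ (C : ℤ) * ((l : ℤ) ^ k * (s a : ℤ) + 1) ^ A) → False

/-- **KEY2.** Let `φ = ∑ c_m s^m ∈ ℤ_l[[s]]` with `c_m = 0` for `m > A` take integral values at `A + 1` distinct integers `T_a`
(divisible by `l` if `A ≥ 0` is to make sense; this is hidden in the hypothesis that the evaluations exist). Then all `c_m`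
are rational.

Proof. With the Vandermonde matrix `M a j = T_a^j` (`a, j ≤ A`), `V = det M ≠ 0`, and `w_a = ∑_{j ≤ A} c_j T_a^j` the values
(`φ` is the polynomial `∑_{j ≤ A} c_j s^j`; apply the ring homomorphism): `∑_a (adj M)_{j a} w_a = V c_j` in `ℤ_l`
(`Matrix.adjugate_mul`), so `c_j` is the quotient of two integers, in `ℚ_l`. -/
def StmtKey2 : Prop :=
  ∀ (l : ℕ) [Fact l.Prime] (φ : PowerSeries ℤ_[l]) (A : ℕ), (∀ m, A < m → PowerSeries.coeff m φ = 0) →
    ∀ T : Fin (A + 1) → ℤ, Function.Injective T → ∀ (w : Fin (A + 1) → ℤ)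
      (e : Fin (A + 1) → (PowerSeries ℤ_[l] →+* ℤ_[l])),
    (∀ a, IsEv ((T a : ℤ) : ℤ_[l]) (e a)) → (∀ a, e a φ = (w a : ℤ_[l])) →
    ∀ m, ∃ q : ℚ, ((PowerSeries.coeff m φ : ℤ_[l]) : ℚ_[l]) = (q : ℚ_[l])

/-- `φ` is not a polynomial of degree `≤ A` with rational coefficients. -/
def NotRat {l : ℕ} [Fact l.Prime] (A : ℕ) (φ : PowerSeries ℤ_[l]) : Prop :=
  (∃ m, A < m ∧ PowerSeries.coeff m φ ≠ 0) ∨
    ∃ m, ∀ q : ℚ, ((PowerSeries.coeff m φ : ℤ_[l]) : ℚ_[l]) ≠ (q : ℚ_[l])

/-- `s` is a hit: the value of `φ` at `T = l^k s` is an integer of absolute value `≤ C (T + 1)^A`. -/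
def Hits {l : ℕ} [Fact l.Prime] (φ : PowerSeries ℤ_[l]) (A C k s : ℕ) : Prop :=
  ∃ (w : ℤ) (e : PowerSeries ℤ_[l] →+* ℤ_[l]), IsEv ((l : ℤ_[l]) ^ k * (s : ℤ_[l])) e ∧
    e φ = (w : ℤ_[l]) ∧ |w| ≤ (C : ℤ) * ((l : ℤ) ^ k * (s : ℤ) + 1) ^ A

/-- **COUNT.** A power series which is not a polynomial of degree `≤ A` with rational coefficients has at most `M` hits `s` in
`[1, S]`, for every `S` and every `k ≥ k₀(S)`; `M` does not depend on `S`.
Uses: `StmtKey1`, `StmtKey2`.

Proof. If `c_m ≠ 0` for some `m > A`: take `M = m` and `k₀` of `StmtKey1` (a set `H` with more than `m` elements contains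
the values of an injective `s : Fin (m + 1) → ℕ`: `Finset.exists_subset_card_eq`, `Finset.equivFin` or
`Finset.orderEmbOfFin`). Otherwise `c_m = 0` for all `m > A` and some `c_m` is irrational: take `M = A`, `k₀ = 0`; more than
`A` hits would give, with `T_a = l^k s_a` (distinct), by `StmtKey2`, that all `c_m` are rational. -/
def StmtCount : Prop :=
  ∀ (l : ℕ) [Fact l.Prime] (φ : PowerSeries ℤ_[l]) (A : ℕ), NotRat A φ → ∀ C : ℕ, ∃ M : ℕ, ∀ S : ℕ,
    ∃ k₀ : ℕ, ∀ k ≥ k₀, ∀ H : Finset ℕ, (∀ s ∈ H, 1 ≤ s ∧ s ≤ S ∧ Hits φ A C k s) → H.card ≤ M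

/-- **SIZE.** The coefficients of the monic factors of `F(T v, Y)` are bounded by `C (|T| + 1)^A`, where `A` does not depend
on `v`.

Proof. Let `D = natDegree F` and `d` a bound for the total degrees of the coefficients of `F`; `A = d D`. Every coefficient
of `F(T v, Y)` has absolute value `≤ C₁ (|T| + 1)^d` (`C₁ ≥ 1` depends on `F, v`: a monomial of degree `i ≤ d` at `T v`
is `T^i` times a constant). A complex root of the monic `F(T v, Y)` has absolute value
`≤ B₁ := 1 + max |coefficients| ≤ 2 C₁ (|T| + 1)^d` (`Polynomial.IsRoot.norm_lt_cauchyBound`, or directly). The roots of a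
monic factor `B` are among them, and `B` splits over `ℂ`, so `|B.coeff j| ≤ (1 + B₁)^D`, a crude form of
`Polynomial.coeff_bdd_of_roots_le` (`≤ max(B₁, 1)^D · choose D (D / 2)`). Total: `≤ C (|T| + 1)^(d D)`. -/
def StmtSize : Prop :=
  ∀ (σ : Type) [Fintype σ] (F : Polynomial (MvPolynomial σ ℤ)), F.Monic → ∃ A : ℕ, ∀ v : σ → ℤ,
    ∃ C : ℕ, ∀ (T : ℤ) (B : Polynomial ℤ), B.Monic →
      B ∣ F.map (MvPolynomial.eval fun i => T * v i) → ∀ j, |B.coeff j| ≤ (C : ℤ) * (|T| + 1) ^ A

/-- **GAUSS.** Let `P ∈ ℤ[Y]` be monic of positive degree, `P = ∏ (Y - η_i)` over `ℤ_l`. If `P` is not irreducible then there are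
a proper non-empty set `I` of indices and a monic factor `B ∈ ℤ[Y]` of `P` with `B = ∏_{i ∈ I} (Y - η_i)`.

Proof. `P` is monic, not a unit, not irreducible: `P = B B'` with `B, B'` monic and of degree `≥ 1`
(`Polynomial.Monic.irreducible_iff_natDegree'` or `Polynomial.Monic.irreducible_iff_natDegree`). Over the field `ℚ_l`
the monic `B` divides `∏ (Y - η_i)`, so `B = ∏_{i ∈ I} (Y - η_i)` for some `I` (induction on the number of factors:
`Y - η_i` is prime; or the multiset of roots of `B` is `≤` the multiset of the `η_i`, `Multiset.le_map` or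
`Multiset.exists_...`; `B` splits). The equation holds over `ℤ_l ⊆ ℚ_l`. `|I| = deg B ∉ {0, D}`. -/
def StmtGauss : Prop :=
  ∀ (l : ℕ) [Fact l.Prime] (D : ℕ) (P : Polynomial ℤ) (η : Fin D → ℤ_[l]), P.Monic → 0 < D →
    P.map (Int.castRingHom ℤ_[l]) = ∏ i, (X - C (η i)) → ¬ Irreducible P →
    ∃ (B : Polynomial ℤ) (I : Finset (Fin D)), B.Monic ∧ B ∣ P ∧ I.Nonempty ∧ I ≠ Finset.univ ∧
      B.map (Int.castRingHom ℤ_[l]) = ∏ i ∈ I, (X - C (η i))

/-- `ℤ[s] → ℤ_l[[s]]` -/
def toPS (l : ℕ) [Fact l.Prime] : Polynomial ℤ →+* PowerSeries ℤ_[l] :=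
  (Polynomial.coeToPowerSeries.ringHom (R := ℤ_[l])).comp
    (Polynomial.mapRingHom (Int.castRingHom ℤ_[l]))

/-- **LINE.** The one-variable case. Let `f ∈ ℤ[s][Y]` be monic of degree `D ≥ 1`, `f = ∏ (Y - y_i)` over `ℤ_l[[s]]`. Suppose
that the coefficients of the monic factors of `f(T, Y)` are `≤ C (|T| + 1)^A` and that for every proper non-empty `I` some
coefficient of `∏_{i ∈ I} (Y - y_i)` is not a rational polynomial of degree `≤ A`. Then for every `g ≠ 0` in `ℤ[s]` there is an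
integer `T` with `f(T, Y)` irreducible and `g(T) ≠ 0`.
Uses: `StmtEval`, `StmtCount`, `StmtGauss`.

Proof. For each proper non-empty `I` let `φ_I` be the coefficient of the hypothesis, `M_I` the bound of `StmtCount` for
`(φ_I, A, C)`. Let `S = ∑_I M_I + natDegree g + 1`, `k ≥ 1` the maximum of the `k₀(S)` of all `I`. Suppose that for every
`s ∈ {1, …, S}`, with `T = l^k s`, `g(T) = 0` or `f(T, Y)` is not irreducible. The number of `s` with `g(l^k s) = 0` is
`≤ natDegree g` (`Polynomial.card_roots'`, the map `s ↦ l^k s` is injective). For the other `s`: let `e` be the evaluation at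
`T` (`StmtEval`, `‖T‖ < 1` as `k ≥ 1`); `f(T, Y)` over `ℤ_l` is `e` of `f` (the two ring homomorphisms
`ℤ[s] → ℤ_l`, `e ∘ toPS l` and `q ↦ q(T)`, agree on `ℤ` and at `s`), so it is `∏ (Y - e y_i)`; by `StmtGauss` there are
`B, I` with `B = ∏_{i ∈ I} (Y - e y_i) = e(∏_{i ∈ I} (Y - y_i))` over `ℤ_l`; so `e φ_I = w` with `w = B.coeff j_I`,
`|w| ≤ C (T + 1)^A`: `s` is a hit of `φ_I`. So `S ≤ natDegree g + ∑_I M_I < S`, a contradiction. -/
def StmtLine : Prop :=
  ∀ (l : ℕ) [Fact l.Prime] (D : ℕ) (f : Polynomial (Polynomial ℤ)) (y : Fin D → PowerSeries ℤ_[l])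
    (A C : ℕ), 0 < D → f.Monic → f.map (toPS l) = ∏ i, (X - Polynomial.C (y i)) →
    (∀ (T : ℤ) (B : Polynomial ℤ), B.Monic → B ∣ f.map (Polynomial.evalRingHom T) →
      ∀ j, |B.coeff j| ≤ (C : ℤ) * (|T| + 1) ^ A) →
    (∀ I : Finset (Fin D), I.Nonempty → I ≠ Finset.univ →
      ∃ j : ℕ, NotRat A ((∏ i ∈ I, (X - Polynomial.C (y i))).coeff j)) →
    ∀ g : Polynomial ℤ, g ≠ 0 →
      ∃ T : ℤ, Irreducible (f.map (Polynomial.evalRingHom T)) ∧ g.eval T ≠ 0

/-- The ring homomorphism `ℤ[t] → ℤ_l[v][[s]]`, `t ↦ s v`. -/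
def lin (l : ℕ) [Fact l.Prime] (σ : Type) :
    MvPolynomial σ ℤ →+* PowerSeries (MvPolynomial σ ℤ_[l]) :=
  MvPolynomial.eval₂Hom (Int.castRingHom _)
    fun i => PowerSeries.X * PowerSeries.C (MvPolynomial.X i)

/-- `c ∈ ℤ_l[v]` has rational coefficients. -/
def RatP {l : ℕ} [Fact l.Prime] {σ : Type} (c : MvPolynomial σ ℤ_[l]) : Prop :=
  ∀ d : σ →₀ ℕ, ∃ q : ℚ, ((MvPolynomial.coeff d c : ℤ_[l]) : ℚ_[l]) = (q : ℚ_[l])

/-- **IRRAT.** Let `F ∈ ℤ[t][Y]` be monic and irreducible, `F(s v, Y) = ∏ (Y - y_i)` with `y_i ∈ ℤ_l[v][[s]]`. For every proper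
non-empty set `I` and every `A` there are `j, m` such that the coefficient `c ∈ ℤ_l[v]` of `s^m Y^j` in
`∏_{i ∈ I} (Y - y_i)` is irrational, or `m > A` and `c ≠ 0`.

Proof. Suppose not: all these `c = c_{j,m}` are rational and `c_{j,m} = 0` for `m > A`. Then there is
`p ∈ ℚ[v][s][Y]`, `p = ∑_{j ≤ |I|} ∑_{m ≤ A} q_{j,m} s^m Y^j`, whose image in `ℚ_l[v][[s]][Y]` is the image of
`∏_{i ∈ I} (Y - y_i)`; `p` is monic of degree `|I|` (the map `ℚ[v][s] → ℚ_l[v][[s]]` is injective). Let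
`f ∈ ℚ[v][s][Y]` be the image of `F` under `t ↦ s v`. In `ℚ_l[v][[s]][Y]` the image of `p` divides the image of `f`
(the rest of the product is the quotient), so `p ∣ f` in `ℚ[v][s][Y]` (`Polynomial.map_dvd_map`, `p` monic). Specialise
`s = 1`: `p(1) ∈ ℚ[v][Y]`, monic of degree `|I|`, divides `F` in `ℚ[v][Y]`. But `F`, monic and irreducible in
`ℤ[v][Y]`, is irreducible over the field of fractions `ℚ(v)` of `ℤ[v]` (`ℤ[v]` is integrally closed:
`Polynomial.Monic.irreducible_iff_irreducible_map_fraction_map`), so in `ℚ[v][Y]`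
(`Polynomial.Monic.irreducible_of_irreducible_map`, with any injective `ℚ[v] → Frac ℤ[v]`; or argue directly over
`Frac(ℤ[v])`: map `p(1)` there). A monic divisor of `F` of degree `|I| ∉ {0, D}`: a contradiction. -/
def StmtIrrat : Prop :=
  ∀ (l : ℕ) [Fact l.Prime] (σ : Type) [Fintype σ] (D : ℕ) (F : Polynomial (MvPolynomial σ ℤ))
    (y : Fin D → PowerSeries (MvPolynomial σ ℤ_[l])), F.Monic → Irreducible F →
    F.map (lin l σ) = ∏ i, (X - Polynomial.C (y i)) →
    ∀ I : Finset (Fin D), I.Nonempty → I ≠ Finset.univ → ∀ A : ℕ, ∃ j m : ℕ,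
      (A < m ∧ PowerSeries.coeff m ((∏ i ∈ I, (X - Polynomial.C (y i))).coeff j) ≠ 0) ∨
        ¬ RatP (PowerSeries.coeff m ((∏ i ∈ I, (X - Polynomial.C (y i))).coeff j))

/-- **DIR.** Given finitely many `c_i ∈ ℤ_l[v]` and `G ≠ 0` in `ℤ[v]` there is `v ∈ ℤ^σ` with `G(v) ≠ 0` such that
`c_i(v) ≠ 0` if `c_i ≠ 0` and `c_i(v)` is irrational if `c_i` has an irrational coefficient.

Proof. For a `ℚ`-linear map `λ : ℚ_l → ℚ` let `λ(c) ∈ ℚ[v]` be obtained by applying `λ` to the coefficients of `c`; for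
`v ∈ ℤ^σ`: `λ(c)(v) = λ(c(v))`. If `c_i ≠ 0`, choose `λ` with `λ(a) ≠ 0` for a non-zero coefficient `a` of `c_i`
(e.g. `exists_dual_forall_apply_eq_zero_iff`, `Module.forall_dual_apply_eq_zero_iff`, for vector spaces over `ℚ`); if `c_i` has
an irrational coefficient `a`, choose also `μ` with `μ(1) = 0`, `μ(a) ≠ 0` (`Submodule.exists_le_ker_of_notMem` or
`Submodule.exists_dual_map_eq_bot_of_notMem` for the subspace `ℚ · 1`). The product of `G` and of all these non-zero
polynomials of `ℚ[v]` is non-zero, so it does not vanish at some point of `ℤ^σ` (clear denominators and use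
`MvPolynomial.funext` over the infinite domain `ℤ`). There `c_i(v) ≠ 0`, resp. `μ(c_i(v)) ≠ 0`, so `c_i(v) ∉ ℚ · 1`. -/
def StmtDir : Prop :=
  ∀ (l : ℕ) [Fact l.Prime] (σ ι : Type) [Fintype σ] [Finite ι] (c : ι → MvPolynomial σ ℤ_[l])
    (G : MvPolynomial σ ℤ), G ≠ 0 → ∃ v : σ → ℤ, MvPolynomial.eval v G ≠ 0 ∧
      ∀ i, (c i ≠ 0 → MvPolynomial.eval (fun j => ((v j : ℤ) : ℤ_[l])) (c i) ≠ 0) ∧
        (¬ RatP (c i) → ∀ q : ℚ,
          ((MvPolynomial.eval (fun j => ((v j : ℤ) : ℤ_[l])) (c i) : ℤ_[l]) : ℚ_[l]) ≠ (q : ℚ_[l]))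

/-- **SEP.** The case of `F(0, Y)` separable.
Uses: `StmtHensel`, `StmtSplit`, `StmtSize`, `StmtIrrat`, `StmtDir`, `StmtLine`.

Proof. `f₀ = F(0, Y) ∈ ℤ[Y]`, `D = natDegree F = natDegree f₀ ≥ 1`; `StmtSplit` gives `l` and the roots `a_i`.
`StmtHensel` for `R = ℤ_l[v]`, `P = F.map (lin l σ)` (its constant coefficient is `f₀` mapped to `ℤ_l[v][Y]`, as
`constantCoeff ∘ lin = C ∘ (t ↦ 0)`; the `a_i ∈ ℤ_l ⊆ R`) gives the `y_i`. `A` from `StmtSize`. For each proper non-empty `I`
choose `j_I, m_I` by `StmtIrrat` for this `A` and let `c_I` be the coefficient; `StmtDir` for the family `c_I` and `G` gives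
`v`. `C` from `StmtSize` for this `v`. Let `f ∈ ℤ[s][Y]` be the image of `F` under `t_i ↦ s v_i`
(`F.map (MvPolynomial.eval₂Hom Polynomial.C (fun i => Polynomial.X * Polynomial.C (v i)))`),
`g = G(s v) ∈ ℤ[s]`, `g(1) = G(v) ≠ 0`; `y_i' = y_i` at `v` (`PowerSeries.map (MvPolynomial.eval v)`). The ring homomorphisms
`ℤ[t] → ℤ_l[[s]]`, `toPS l ∘ (t ↦ s v)` and `PowerSeries.map (eval v) ∘ lin`, agree, so `f = ∏ (Y - y_i')` over
`ℤ_l[[s]]`. The coefficient of `s^m Y^j` in `∏_{i ∈ I} (Y - y_i')` is the value at `v` of the one of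
`∏_{i ∈ I} (Y - y_i)`, so the hypothesis `NotRat A` of `StmtLine` holds, and `f(T, Y) = F(T v, Y)` gives the size
hypothesis. `StmtLine` gives `T`; `x = T v`. -/
def StmtSep : Prop :=
  ∀ (σ : Type) [Fintype σ] (F : Polynomial (MvPolynomial σ ℤ)) (G : MvPolynomial σ ℤ), F.Monic →
    Irreducible F → G ≠ 0 →
    ((F.map (MvPolynomial.eval fun _ => (0 : ℤ))).map (Int.castRingHom ℚ)).Separable →
    ∃ x : σ → ℤ, Irreducible (F.map (MvPolynomial.eval x)) ∧ MvPolynomial.eval x G ≠ 0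

/-- **HITZ.** Hilbert's irreducibility theorem over `ℤ`.
Uses: `StmtSep`.

Proof. `F` is monic and irreducible in `ℤ[t][Y]`, so irreducible over the field `k` of fractions of `ℤ[t]`
(`Polynomial.Monic.irreducible_iff_irreducible_map_fraction_map`), of characteristic `0`, so `F` and `F'` are coprime over `k`:
clearing denominators, `a F + b F' = δ` with `a, b ∈ ℤ[t][Y]` and `0 ≠ δ ∈ ℤ[t]`. Choose `z ∈ ℤ^σ` with `δ(z) ≠ 0`
(`MvPolynomial.funext`). `F(z, Y)` is separable over `ℚ` (specialise the identity, divide by `δ(z)`). Apply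
`StmtSep` to `F(t + z, Y)` and `G(t + z)`, where `t ↦ t + z` is the automorphism of `ℤ[t]`
(`MvPolynomial.eval₂Hom MvPolynomial.C fun i => X i + C (z i)`, with the inverse `t ↦ t - z`; an isomorphism of rings maps
irreducible elements to such: `MulEquiv.irreducible_iff`), and put `x = x' + z`. -/
def StmtHITZ : Prop :=
  ∀ (σ : Type) [Fintype σ] (F : Polynomial (MvPolynomial σ ℤ)) (G : MvPolynomial σ ℤ), F.Monic →
    Irreducible F → G ≠ 0 →
    ∃ x : σ → ℤ, Irreducible (F.map (MvPolynomial.eval x)) ∧ MvPolynomial.eval x G ≠ 0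

/-! ## Part K -/

/-- Hilbert's irreducibility theorem for the field `K` and the variables `t_i`, `i ∈ σ`, with integral values. -/
def HitP (K : Type) [Field K] (σ : Type) : Prop :=
  ∀ (F : Polynomial (MvPolynomial σ K)) (G : MvPolynomial σ K), F.Monic → Irreducible F → G ≠ 0 →
    ∃ x : σ → ℤ, Irreducible (F.map (MvPolynomial.eval fun i => (x i : K))) ∧
      MvPolynomial.eval (fun i => (x i : K)) G ≠ 0

/-- **Q0.** The field `Q₀ = Frac(ℤ[z_τ])`.
Uses: `StmtHITZ`.

Proof. Let `B = ℤ[z]`, `D = natDegree F`. Let `0 ≠ w ∈ B` be a common denominator of all coefficients of `F ∈ Q₀[t][Y]` and of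
`G` (`IsLocalization.exist_integer_multiples`). `F' := w^D F(t, Y / w) = Polynomial.scaleRoots F (C w)`, with coefficients
`F_j w^(D - j)`, is the image of a monic polynomial `F₁ ∈ B[t][Y]`, `w G` is the image of `G₁ ∈ B[t]`, `G₁ ≠ 0`. `F'` is
irreducible in `Q₀[t][Y]` (`w` is a unit of `Q₀`), so `F₁` is irreducible (`Polynomial.Monic.irreducible_of_irreducible_map`).
`B[t] = ℤ[t, z]` (`MvPolynomial.sumRingEquiv`); `StmtHITZ` for `σ ⊕ τ` gives `(x, ζ)` with `F₁(x, ζ, Y)` irreducible in `ℤ[Y]`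
and `G₁(x, ζ) ≠ 0`. So `F₁(x, Y) ∈ B[Y]`, monic, is irreducible, because its image under `z ↦ ζ` is
(`Polynomial.Monic.irreducible_of_irreducible_map`), so it is irreducible over `Q₀` (Gauss, `B` is integrally closed). As
`F₁(x, Y) = w^D F(x, Y / w)` over `Q₀`, `F(x, Y)` is irreducible over `Q₀`; `w G(x) = G₁(x) ≠ 0`, because
`G₁(x, ζ) ≠ 0`. -/
def StmtQ0 : Prop :=
  ∀ (τ σ : Type) [Fintype τ] [Fintype σ], HitP (FractionRing (MvPolynomial τ ℤ)) σ

/-- **PRIM.** Let `K / k` be finite of characteristic `0`, `F ∈ K[t][Y]` monic and irreducible. There are `b ∈ K` and a monic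
irreducible `H ∈ k[t][Y]` of degree `deg F · [K : k]` such that `F(t, Y - b)` divides `H` in `K[t][Y]`.

Proof. Let `k(t), K(t)` be the fields of fractions of `k[t], K[t]`; `[K(t) : k(t)] = [K : k] =: e` (`K[t]` is free of rank `e`
over `k[t]`, and every non-zero element of `K[t]` divides a non-zero element of `k[t]`; `Module.finrank_of_isFractionRing`
or `IsLocalization` of a finite free extension; or: a basis of `K / k` is a basis of `K(t) / k(t)`). Let `L = K(t)(θ)`, `θ` a root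
of `F` (`AdjoinRoot`; `F` is irreducible over `K(t)` by Gauss), `D = deg F = [L : K(t)]`, so `[L : k(t)] = D e`. Let
`K = k(α)` (`Field.exists_primitive_element`). `L = k(t)(θ, α)`. As in the proof of the primitive element theorem
(`Field.primitive_element_inf_aux`, `Field.primitive_element_inf_aux_exists_c`), all but finitely many `c ∈ k(t)` have
`k(t)(θ + c α) = k(t)(θ, α) = L`; choose such a `c = λ ∈ ℕ`; `b := λ α`, `β := θ + b`. `β` is integral over `K[t]`, so over
`k[t]`. `H := minpoly k[t] β`: monic, its image over `k(t)` is `minpoly k(t) β` (`minpoly.isIntegrallyClosed_eq_field_fractions'`),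
irreducible and of degree `D e`; so `H` is irreducible. Over `K(t)` the polynomial `F(Y - b)` is monic, irreducible, with root
`β`, so it is the minimal polynomial of `β` and divides `H`; by `Polynomial.map_dvd_map` (monic, `K[t] → K(t)` injective) it
divides `H` in `K[t][Y]`. -/
def StmtPrim : Prop :=
  ∀ (k K : Type) [Field k] [Field K] [Algebra k K] [FiniteDimensional k K] [CharZero k]
    (σ : Type) [Fintype σ] (F : Polynomial (MvPolynomial σ K)), F.Monic → Irreducible F →
    ∃ (H : Polynomial (MvPolynomial σ k)) (b : K), H.Monic ∧ Irreducible H ∧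
      H.natDegree = F.natDegree * Module.finrank k K ∧
      F.comp (X - C (MvPolynomial.C b)) ∣ H.map (MvPolynomial.map (algebraMap k K))

/-- **DOWN.** Let `K / k` be finite, `h ∈ k[Y]` irreducible, `f ∈ K[Y]` monic of positive degree, `b ∈ K`,
`deg h = deg f · [K : k]`, and `f(Y - b) ∣ h` in `K[Y]`. Then `f` is irreducible.

Proof. Let `p` be an irreducible factor of `f` over `K`, `L = K[Y]/(p)` with the root `y`, `[L : K] = deg p`. Then `y + b` is a
root of `f(Y - b)`, so of `h`, so `deg h = [k(y + b) : k] ≤ [L : k] = deg p · [K : k]`. So `deg f ≤ deg p`, and `p` is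
associated to `f`. -/
def StmtDown : Prop :=
  ∀ (k K : Type) [Field k] [Field K] [Algebra k K] [FiniteDimensional k K] (h : Polynomial k)
    (f : Polynomial K) (b : K), Irreducible h → f.Monic → 0 < f.natDegree →
    h.natDegree = f.natDegree * Module.finrank k K →
    f.comp (X - C b) ∣ h.map (algebraMap k K) → Irreducible f

/-- **FUNC.** For `0 ≠ G ∈ K[t]`, `K / k` any extension, there is `0 ≠ G' ∈ k[t]` which vanishes at every point of `k^σ`
where `G` vanishes.

Proof. Let `a` be a non-zero coefficient of `G` and `λ : K → k` a `k`-linear map with `λ(a) ≠ 0`. `G' = λ(G)`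
(coefficientwise); `G'(x) = λ(G(x))` for `x ∈ k^σ`. -/
def StmtFunc : Prop :=
  ∀ (k K : Type) [Field k] [Field K] [Algebra k K] (σ : Type) (G : MvPolynomial σ K),
    G ≠ 0 → ∃ G' : MvPolynomial σ k, G' ≠ 0 ∧ ∀ x : σ → k,
      MvPolynomial.eval (fun i => algebraMap k K (x i)) G = 0 → MvPolynomial.eval x G' = 0

/-- **FIN.** Finite extensions.
Uses: `StmtPrim`, `StmtDown`, `StmtFunc`.

Proof. `H, b` from `StmtPrim`, `G'` from `StmtFunc`; `HitP k σ` gives `x ∈ ℤ^σ` with `H(x, Y)` irreducible over `k` and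
`G'(x) ≠ 0`, so `G(x) ≠ 0`. `StmtDown` for `h = H(x, Y)`, `f = F(x, Y)` (specialise the divisibility; degrees of monic
polynomials are preserved; `deg F > 0`, because the monic `F` is irreducible). -/
def StmtFin : Prop :=
  ∀ (k K : Type) [Field k] [Field K] [Algebra k K] [FiniteDimensional k K] [CharZero k]
    (σ : Type) [Fintype σ], HitP k σ → HitP K σ

/-- **FG.** A finitely generated field of characteristic `0` is finite over a field `Frac(ℤ[z_1, …, z_m])`.

Proof. Let `S` be a finite set of generators of `K` as a field (so over the prime field). A transcendence basis of `K` over `ℚ` inside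
`S` (`exists_isTranscendenceBasis_subset` or `exists_isTranscendenceBasis_between`), numbered by `Fin m`: `z_1, …, z_m ∈ K`,
algebraically independent over `ℚ`, so over `ℤ`: the injection `ℤ[z] → K` extends to
`φ : FractionRing (MvPolynomial (Fin m) ℤ) → K` (`IsFractionRing.lift`). `K` is algebraic over `ℚ(z)`, which is the image of `φ`,
and generated by the finite set `S` over it, so it is finite over the image of `φ` (`IntermediateField.finiteDimensional_adjoin`
or `Algebra.FiniteType` + integral). -/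
def StmtFG : Prop :=
  ∀ (K : Type) [Field K] [CharZero K], (∃ S : Finset K, Subfield.closure (S : Set K) = ⊤) →
    ∃ (m : ℕ) (φ : FractionRing (MvPolynomial (Fin m) ℤ) →+* K), φ.Finite

/-- **HITK.** Hilbert's irreducibility theorem for finitely generated fields of characteristic `0`.
Uses: `StmtQ0`, `StmtFin`, `StmtFG`.

Proof. `StmtFG` gives `m, φ`; `K` is an algebra over `k = Frac(ℤ[z])` by `φ` (`RingHom.toAlgebra`), finite-dimensional, `k` of
characteristic `0`; `StmtQ0` for `τ = Fin m` and `StmtFin`. -/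
def StmtHITK : Prop :=
  ∀ (K : Type) [Field K] [CharZero K], (∃ S : Finset K, Subfield.closure (S : Set K) = ⊤) →
    ∀ (σ : Type) [Fintype σ], HitP K σ

/-- **HITC.** The form with congruences, and with irreducibility over the field of rational functions.
Uses: `StmtHITK`.

Proof. `F` monic, irreducible over `K(t)`, so irreducible in `K[t][Y]` (`Polynomial.Monic.irreducible_of_irreducible_map`). The
automorphism `t_i ↦ a_i + M t_i` of `K[t]` (`M ≠ 0` in `K`) maps `F` to a monic irreducible polynomial and `G` to a non-zero one;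
`StmtHITK` for these gives `x'`; `x = a + M x'`. -/
def StmtHITC : Prop :=
  ∀ (K : Type) [Field K] [CharZero K], (∃ S : Finset K, Subfield.closure (S : Set K) = ⊤) →
    ∀ (σ : Type) [Fintype σ] (F : Polynomial (MvPolynomial σ K)) (G : MvPolynomial σ K) (M : ℤ)
      (a : σ → ℤ), F.Monic →
      Irreducible (F.map (algebraMap (MvPolynomial σ K) (FractionRing (MvPolynomial σ K)))) →
      G ≠ 0 → M ≠ 0 →
      ∃ x : σ → ℤ, (∀ i, M ∣ x i - a i) ∧
        Irreducible (F.map (MvPolynomial.eval fun i => (x i : K))) ∧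
        MvPolynomial.eval (fun i => (x i : K)) G ≠ 0

end Pool.Agent.Lib.MP_16285c_agN.Hit
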