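import Mathlib
import Pool.Agent.Lib.MP_16285c_agN.Hit.Spec

/-!
# Hilbert's irreducibility theorem for the field of fractions of `ℤ[z]`

Proof of `StmtQ0` from `StmtHITZ`, as in the docstring of `StmtQ0`.
-/

set_option autoImplicit false

noncomputable section

namespace Pool.Agent.Lib.MP_16285c_agN.Hit

open Polynomial

namespace Q0_aux

/-- Scaling the roots by a unit keeps a monic polynomial irreducible. -/
theorem irr_scale_of {R : Type} [CommRing R] [IsDomain R] {u v : R} (huv : u * v = 1)
    {p : R[X]} (hp : p.Monic) (h : Irreducible p) : Irreducible (p.scaleRoots u) := by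
  have hm : (p.scaleRoots u).Monic := (monic_scaleRoots_iff u).2 hp
  rw [hm.irreducible_iff_natDegree]
  rw [hp.irreducible_iff_natDegree] at h
  refine ⟨fun h1 => h.1 ?_, fun f g hf hg hfg => ?_⟩
  · have := congrArg (fun q => scaleRoots q v) h1
    simpa [← scaleRoots_mul, huv, scaleRoots_one] using this
  · have h2 : f.scaleRoots v * g.scaleRoots v = p := by
      rw [← mul_scaleRoots_of_noZeroDivisors, hfg, ← scaleRoots_mul, huv, scaleRoots_one]
    have h3 := h.2 _ _ ((monic_scaleRoots_iff v).2 hf) ((monic_scaleRoots_iff v).2 hg) h2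
    simpa using h3

/-- Scaling the roots by a unit does not change the irreducibility of a monic polynomial. -/
theorem irr_scale {R : Type} [CommRing R] [IsDomain R] {u v : R} (huv : u * v = 1)
    {p : R[X]} (hp : p.Monic) : Irreducible (p.scaleRoots u) ↔ Irreducible p := by
  refine ⟨fun h => ?_, irr_scale_of huv hp⟩
  have h1 := irr_scale_of (u := v) (v := u) (by rw [mul_comm]; exact huv)
    ((monic_scaleRoots_iff u).2 hp) h
  rwa [← scaleRoots_mul, huv, scaleRoots_one] at h1

/-- Evaluation at a point of `ℤ^(σ ⊕ τ)` in two steps. -/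
theorem eval_sum (σ τ : Type) (x : σ ⊕ τ → ℤ) :
    (MvPolynomial.eval x).comp
      ((MvPolynomial.sumRingEquiv ℤ σ τ).symm :
        MvPolynomial σ (MvPolynomial τ ℤ) →+* MvPolynomial (σ ⊕ τ) ℤ) =
      (MvPolynomial.eval (fun j => x (Sum.inr j))).comp
        (MvPolynomial.eval (fun i => ((x (Sum.inl i) : ℤ) : MvPolynomial τ ℤ))) := by
  refine MvPolynomial.ringHom_ext' ?_ ?_
  · refine MvPolynomial.ringHom_ext ?_ ?_
    · intro r
      simp
    · intro j
      simp [MvPolynomial.sumRingEquiv_symm_C_X]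
  · intro i
    simp [MvPolynomial.sumRingEquiv_symm_X]

end Q0_aux

attribute [local instance] MvPolynomial.algebraMvPolynomial

open Q0_aux in
/-- **Q0.** -/
theorem stmtQ0 (hZ : StmtHITZ) : StmtQ0 := by
  intro τ σ _ _ F G hF hFi hG
  set B := MvPolynomial τ ℤ with hB
  set Q := FractionRing B with hQ
  -- the denominators
  let M : Submonoid (MvPolynomial σ B) := (nonZeroDivisors B).map (MvPolynomial.C (σ := σ))
  have hloc : IsLocalization M (MvPolynomial σ Q) := MvPolynomial.isLocalization (nonZeroDivisors B) Q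
  have halg : (algebraMap (MvPolynomial σ B) (MvPolynomial σ Q)) =
      MvPolynomial.map (algebraMap B Q) := rfl
  have hinj : Function.Injective (algebraMap B Q) := IsFractionRing.injective B Q
  -- lift of F
  have h1 := IsLocalization.scaleRoots_commonDenom_mem_lifts M F
    (by rw [hF.leadingCoeff]; exact ⟨1, map_one _⟩)
  obtain ⟨w, hw0, hw⟩ : ∃ w : B, w ∈ nonZeroDivisors B ∧
      MvPolynomial.C w = ((IsLocalization.commonDenom M F.support F.coeff : M) : MvPolynomial σ B) := by
    obtain ⟨w, hw0, hw⟩ := (IsLocalization.commonDenom M F.support F.coeff).2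
    exact ⟨w, hw0, hw⟩
  rw [← hw] at h1
  have hwQ : algebraMap B Q w ≠ 0 := by
    intro h
    exact nonZeroDivisors.ne_zero hw0 (hinj (by rw [h, map_zero]))
  rw [halg, MvPolynomial.map_C] at h1
  obtain ⟨F₁, hF₁, -, hF₁m⟩ := lifts_and_natDegree_eq_and_monic h1
    ((monic_scaleRoots_iff _).2 hF)
  -- lift of G
  obtain ⟨⟨G₁, ⟨-, w', hw'0, rfl⟩⟩, hG₁⟩ := IsLocalization.surj M G
  have hw'Q : algebraMap B Q w' ≠ 0 := by
    intro h
    exact nonZeroDivisors.ne_zero hw'0 (hinj (by rw [h, map_zero]))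
  replace hG₁ : G * MvPolynomial.C (algebraMap B Q w') = MvPolynomial.map (algebraMap B Q) G₁ := by
    have := hG₁
    rw [halg] at this
    simpa using this
  have hG₁0 : G₁ ≠ 0 := by
    rintro rfl
    rw [map_zero, mul_eq_zero] at hG₁
    rcases hG₁ with h | h
    · exact hG h
    · rw [← MvPolynomial.C_0] at h
      exact hw'Q (MvPolynomial.C_injective _ _ h)
  -- `F₁` is irreducible
  have huv : MvPolynomial.C (σ := σ) (algebraMap B Q w) *
      MvPolynomial.C (σ := σ) (algebraMap B Q w)⁻¹ = 1 := by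
    rw [← MvPolynomial.C_mul, mul_inv_cancel₀ hwQ, MvPolynomial.C_1]
  have hF₁i : Irreducible F₁ := by
    refine Polynomial.Monic.irreducible_of_irreducible_map (MvPolynomial.map (algebraMap B Q)) F₁
      hF₁m ?_
    rw [hF₁]
    exact irr_scale_of huv hF hFi
  -- pass to `ℤ[t, z]`
  let e : MvPolynomial (σ ⊕ τ) ℤ ≃+* MvPolynomial σ B := MvPolynomial.sumRingEquiv ℤ σ τ
  let F₂ : Polynomial (MvPolynomial (σ ⊕ τ) ℤ) := F₁.map (e.symm : MvPolynomial σ B →+* _)
  have hF₂m : F₂.Monic := hF₁m.map _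
  have hF₂i : Irreducible F₂ := by
    have h := (MulEquiv.irreducible_iff (Polynomial.mapEquiv e.symm) (x := F₁)).2 hF₁i
    exact h
  have hG₂ : e.symm G₁ ≠ 0 := by
    intro h
    exact hG₁0 (e.symm.injective (by rw [h, map_zero]))
  obtain ⟨x, hx1, hx2⟩ := hZ (σ ⊕ τ) F₂ (e.symm G₁) hF₂m hF₂i hG₂
  -- the specialisations
  have hcomp : (MvPolynomial.eval x).comp (e.symm : MvPolynomial σ B →+* _) =
      (MvPolynomial.eval (fun j => x (Sum.inr j))).comp
        (MvPolynomial.eval (fun i => ((x (Sum.inl i) : ℤ) : B))) :=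
    eval_sum σ τ x
  let F₃ : Polynomial B := F₁.map (MvPolynomial.eval (fun i => ((x (Sum.inl i) : ℤ) : B)))
  have hF₃m : F₃.Monic := hF₁m.map _
  have hF₃i : Irreducible F₃ := by
    refine Polynomial.Monic.irreducible_of_irreducible_map
      (MvPolynomial.eval (fun j => x (Sum.inr j))) F₃ hF₃m ?_
    have h : F₃.map (MvPolynomial.eval (fun j => x (Sum.inr j))) = F₂.map (MvPolynomial.eval x) := by
      simp only [F₃, F₂, Polynomial.map_map]
      rw [hcomp]
    rw [h]
    exact hx1
  have hF₃Q := (hF₃m.irreducible_iff_irreducible_map_fraction_map (K := Q)).1 hF₃i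
  have hev : (algebraMap B Q).comp (MvPolynomial.eval (fun i => ((x (Sum.inl i) : ℤ) : B))) =
      (MvPolynomial.eval (fun i => ((x (Sum.inl i) : ℤ) : Q))).comp
        (MvPolynomial.map (algebraMap B Q)) := by
    refine MvPolynomial.ringHom_ext ?_ ?_
    · intro r
      simp
    · intro i
      simp
  refine ⟨fun i => x (Sum.inl i), ?_, ?_⟩
  · have h : F₃.map (algebraMap B Q) =
        (F.map (MvPolynomial.eval (fun i => ((x (Sum.inl i) : ℤ) : Q)))).scaleRoots
          (algebraMap B Q w) := by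
      simp only [F₃, Polynomial.map_map]
      rw [hev, ← Polynomial.map_map, hF₁, map_scaleRoots]
      · simp
      · rw [hF.leadingCoeff, map_one]
        exact one_ne_zero
    rw [h] at hF₃Q
    exact (irr_scale (mul_inv_cancel₀ hwQ) (hF.map _)).1 hF₃Q
  · intro h0
    apply hx2
    have h1 : MvPolynomial.eval x (e.symm G₁) = MvPolynomial.eval (fun j => x (Sum.inr j))
        (MvPolynomial.eval (fun i => ((x (Sum.inl i) : ℤ) : B)) G₁) :=
      congrArg (fun φ : MvPolynomial σ B →+* ℤ => φ G₁) hcomp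
    have h2 : algebraMap B Q (MvPolynomial.eval (fun i => ((x (Sum.inl i) : ℤ) : B)) G₁) =
        MvPolynomial.eval (fun i => ((x (Sum.inl i) : ℤ) : Q))
          (MvPolynomial.map (algebraMap B Q) G₁) :=
      congrArg (fun φ : MvPolynomial σ B →+* Q => φ G₁) hev
    rw [← hG₁, map_mul, h0, zero_mul] at h2
    have h3 : MvPolynomial.eval (fun i => ((x (Sum.inl i) : ℤ) : B)) G₁ = 0 :=
      hinj (by rw [h2, map_zero])
    rw [h1, h3, map_zero]

end Pool.Agent.Lib.MP_16285c_agN.Hit
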