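import Pool.Agent.Lib.MP_16285c_agN.Hit.Spec

/-!
# Hilbert's irreducibility theorem: the case of separable `F(0, Y)` (`StmtSep`)
-/

set_option autoImplicit false

noncomputable section

namespace Pool.Agent.Lib.MP_16285c_agN.Hit

open Polynomial

namespace Sep_aux

/-- `ℤ[t] → ℤ[s]`, `t ↦ s v` -/
def line {σ : Type} (v : σ → ℤ) : MvPolynomial σ ℤ →+* Polynomial ℤ :=
  MvPolynomial.eval₂Hom Polynomial.C fun i => Polynomial.X * Polynomial.C (v i)

/-- the evaluation of the coefficients at `v` -/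
def evv (l : ℕ) [Fact l.Prime] {σ : Type} (v : σ → ℤ) : MvPolynomial σ ℤ_[l] →+* ℤ_[l] :=
  MvPolynomial.eval fun j => ((v j : ℤ) : ℤ_[l])

theorem constCoeff_lin (l : ℕ) [Fact l.Prime] (σ : Type) :
    (PowerSeries.constantCoeff (R := MvPolynomial σ ℤ_[l])).comp (lin l σ) =
      ((MvPolynomial.C (σ := σ) (R := ℤ_[l])).comp (Int.castRingHom ℤ_[l])).comp
        (MvPolynomial.eval fun _ => (0 : ℤ)) := by
  apply MvPolynomial.ringHom_ext
  · intro r
    simp [lin]
  · intro i
    simp [lin]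

theorem toPS_line (l : ℕ) [Fact l.Prime] {σ : Type} (v : σ → ℤ) :
    (toPS l).comp (line v) = (PowerSeries.map (evv l v)).comp (lin l σ) := by
  apply MvPolynomial.ringHom_ext
  · intro r
    simp [lin, line, toPS]
  · intro i
    simp only [lin, line, toPS, evv, RingHom.comp_apply, MvPolynomial.coe_eval₂Hom,
      MvPolynomial.eval₂_X, map_mul, Polynomial.coe_mapRingHom, Polynomial.map_X,
      Polynomial.map_C, Polynomial.coeToPowerSeries.ringHom_apply, Polynomial.coe_X,
      Polynomial.coe_C, PowerSeries.map_X, PowerSeries.map_C, MvPolynomial.eval_X]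
    simp

theorem eval_line {σ : Type} (v : σ → ℤ) (T : ℤ) :
    (Polynomial.evalRingHom T).comp (line v) = MvPolynomial.eval fun i => T * v i := by
  apply MvPolynomial.ringHom_ext
  · intro r
    simp [line]
  · intro i
    simp [line]

theorem coeff_prod (l : ℕ) [Fact l.Prime] {σ : Type} (v : σ → ℤ) {D : ℕ}
    (y : Fin D → PowerSeries (MvPolynomial σ ℤ_[l])) (I : Finset (Fin D)) (j m : ℕ) :
    PowerSeries.coeff m
        ((∏ i ∈ I, (X - Polynomial.C (PowerSeries.map (evv l v) (y i)))).coeff j) =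
      evv l v (PowerSeries.coeff m ((∏ i ∈ I, (X - Polynomial.C (y i))).coeff j)) := by
  have h : ∏ i ∈ I, (X - Polynomial.C (PowerSeries.map (evv l v) (y i))) =
      (∏ i ∈ I, (X - Polynomial.C (y i))).map (PowerSeries.map (evv l v)) := by
    rw [Polynomial.map_prod]
    refine Finset.prod_congr rfl fun i _ => ?_
    simp
  rw [h, Polynomial.coeff_map, PowerSeries.coeff_map]

end Sep_aux

open Sep_aux

theorem stmtSep (hH : StmtHensel) (hSp : StmtSplit) (hSz : StmtSize) (hI : StmtIrrat)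
    (hD : StmtDir) (hL : StmtLine) : StmtSep := by
  intro σ _ F G hF hirr hG hsep
  set f₀ : Polynomial ℤ := F.map (MvPolynomial.eval fun _ => (0 : ℤ)) with hf₀
  have hf₀m : f₀.Monic := hF.map _
  obtain ⟨l, hl, a, ha, hau⟩ := hSp f₀ hf₀m hsep
  have hdeg : f₀.natDegree = F.natDegree := hF.natDegree_map _
  have hpos : 0 < f₀.natDegree := by
    rw [hdeg]
    by_contra h0
    have h1 : F = 1 := hF.natDegree_eq_zero.mp (by omega)
    exact hirr.not_isUnit (h1 ▸ isUnit_one)
  have hP0 : (F.map (lin l σ)).map PowerSeries.constantCoeff =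
      ∏ i, (X - Polynomial.C (MvPolynomial.C (σ := σ) (a i))) := by
    rw [Polynomial.map_map, constCoeff_lin, ← Polynomial.map_map, ← Polynomial.map_map, ← hf₀, ha,
      Polynomial.map_prod]
    refine Finset.prod_congr rfl fun i _ => ?_
    simp
  obtain ⟨y, -, hy⟩ := hH (MvPolynomial σ ℤ_[l]) f₀.natDegree (F.map (lin l σ))
    (fun i => MvPolynomial.C (a i)) (hF.map _) hP0 (fun i j hij => by
      rw [← map_sub]
      exact (hau i j hij).map MvPolynomial.C)
  obtain ⟨A, hA⟩ := hSz σ F hF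
  have hI' := fun I : {I : Finset (Fin f₀.natDegree) // I.Nonempty ∧ I ≠ Finset.univ} =>
    hI l σ f₀.natDegree F y hF hirr hy I.1 I.2.1 I.2.2 A
  choose j m hjm using hI'
  obtain ⟨v, hGv, hv⟩ := hD l σ {I : Finset (Fin f₀.natDegree) // I.Nonempty ∧ I ≠ Finset.univ}
    (fun I => PowerSeries.coeff (m I) ((∏ i ∈ I.1, (X - Polynomial.C (y i))).coeff (j I))) G hG
  obtain ⟨C₀, hC₀⟩ := hA v
  have hmap : (F.map (line v)).map (toPS l) =
      ∏ i, (X - Polynomial.C (PowerSeries.map (evv l v) (y i))) := by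
    rw [Polynomial.map_map, toPS_line, ← Polynomial.map_map, hy, Polynomial.map_prod]
    refine Finset.prod_congr rfl fun i _ => ?_
    simp
  have hev : ∀ T : ℤ, (F.map (line v)).map (Polynomial.evalRingHom T) =
      F.map (MvPolynomial.eval fun i => T * v i) := by
    intro T
    rw [Polynomial.map_map, eval_line]
  have hg : line v G ≠ 0 := by
    intro h0
    apply hGv
    have h1 := congrArg (Polynomial.evalRingHom 1) h0
    rw [← RingHom.comp_apply, eval_line, map_zero] at h1
    simpa using h1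
  obtain ⟨T, hT1, hT2⟩ := hL l f₀.natDegree (F.map (line v))
    (fun i => PowerSeries.map (evv l v) (y i)) A C₀ hpos (hF.map _) hmap
    (fun T B hB hBd => by
      rw [hev T] at hBd
      exact hC₀ T B hB hBd)
    (fun I hI1 hI2 => by
      refine ⟨j ⟨I, hI1, hI2⟩, ?_⟩
      have h3 := hjm ⟨I, hI1, hI2⟩
      have h4 := hv ⟨I, hI1, hI2⟩
      have h5 := coeff_prod l v y I (j ⟨I, hI1, hI2⟩) (m ⟨I, hI1, hI2⟩)
      rcases h3 with ⟨h6, h7⟩ | h6
      · left
        refine ⟨m ⟨I, hI1, hI2⟩, h6, ?_⟩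
        rw [h5]
        exact h4.1 h7
      · right
        refine ⟨m ⟨I, hI1, hI2⟩, fun q => ?_⟩
        rw [h5]
        exact h4.2 h6 q)
    (line v G) hg
  refine ⟨fun i => T * v i, ?_, ?_⟩
  · rw [← hev T]
    exact hT1
  · rw [← eval_line v T]
    simpa using hT2

end Pool.Agent.Lib.MP_16285c_agN.Hit
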