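import Pool.Agent.Lib.MP_16285c_agN.Hit.Spec

/-!
The coefficients of the monic factors are of polynomial size.
-/

set_option autoImplicit false

namespace Pool.Agent.Lib.MP_16285c_agN.Hit

open Polynomial

namespace Size_aux

/-- values on a line -/
lemma eval_le {σ : Type} [Fintype σ] (p : MvPolynomial σ ℤ) (v : σ → ℤ) :
    ∃ C : ℕ, ∀ T : ℤ,
      |MvPolynomial.eval (fun i => T * v i) p| ≤ (C : ℤ) * (|T| + 1) ^ p.totalDegree := by
  classical
  refine ⟨(∑ m ∈ p.support, |MvPolynomial.coeff m p| * ∏ i, |v i| ^ m i).toNat, fun T => ?_⟩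
  have hT0 := abs_nonneg T
  have h0 : 0 ≤ ∑ m ∈ p.support, |MvPolynomial.coeff m p| * ∏ i, |v i| ^ m i :=
    Finset.sum_nonneg fun m _ => mul_nonneg (abs_nonneg _)
      (Finset.prod_nonneg fun i _ => pow_nonneg (abs_nonneg _) _)
  rw [Int.toNat_of_nonneg h0, MvPolynomial.eval_eq', Finset.sum_mul]
  refine (Finset.abs_sum_le_sum_abs _ _).trans (Finset.sum_le_sum fun m hm => ?_)
  have h1 : ∑ i, m i ≤ p.totalDegree := by
    have h := MvPolynomial.le_totalDegree hm
    rwa [Finsupp.sum_fintype _ _ (fun _ => rfl)] at h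
  rw [abs_mul, Finset.abs_prod, mul_assoc]
  refine mul_le_mul_of_nonneg_left ?_ (abs_nonneg _)
  have h2 : ∏ i, |(T * v i) ^ m i| = |T| ^ (∑ i, m i) * ∏ i, |v i| ^ m i := by
    rw [← Finset.prod_pow_eq_pow_sum, ← Finset.prod_mul_distrib]
    refine Finset.prod_congr rfl fun i _ => ?_
    rw [abs_pow, abs_mul, mul_pow]
  rw [h2, mul_comm]
  refine mul_le_mul_of_nonneg_left ?_ (Finset.prod_nonneg fun i _ => pow_nonneg (abs_nonneg _) _)
  calc |T| ^ (∑ i, m i) ≤ (|T| + 1) ^ (∑ i, m i) := pow_le_pow_left₀ hT0 (by omega) _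
    _ ≤ (|T| + 1) ^ p.totalDegree := pow_le_pow_right₀ (by omega) h1

/-- all coefficients on a line -/
lemma coeff_le {σ : Type} [Fintype σ] (F : Polynomial (MvPolynomial σ ℤ)) (v : σ → ℤ) :
    ∃ C : ℕ, 1 ≤ C ∧ ∀ (T : ℤ) (j : ℕ),
      |(F.map (MvPolynomial.eval fun i => T * v i)).coeff j| ≤
        (C : ℤ) * (|T| + 1) ^ (∑ j ∈ Finset.range (F.natDegree + 1), (F.coeff j).totalDegree) := by
  choose c hc using fun j => eval_le (F.coeff j) v
  refine ⟨1 + ∑ j ∈ Finset.range (F.natDegree + 1), c j, Nat.le_add_right _ _, fun T j => ?_⟩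
  have hT0 := abs_nonneg T
  have hpos : ∀ d : ℕ, (0 : ℤ) ≤ (|T| + 1) ^ d := fun d => pow_nonneg (by omega) d
  rw [Polynomial.coeff_map]
  by_cases hj : j ∈ Finset.range (F.natDegree + 1)
  · have h1 : c j ≤ 1 + ∑ j ∈ Finset.range (F.natDegree + 1), c j :=
      (Finset.single_le_sum (fun i _ => Nat.zero_le (c i)) hj).trans (Nat.le_add_left _ _)
    have h2 : (F.coeff j).totalDegree ≤
        ∑ j ∈ Finset.range (F.natDegree + 1), (F.coeff j).totalDegree :=
      Finset.single_le_sum (f := fun i => (F.coeff i).totalDegree) (fun i _ => Nat.zero_le _) hj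
    refine (hc j T).trans ?_
    refine mul_le_mul (by exact_mod_cast h1) (pow_le_pow_right₀ (by omega) h2) (hpos _) ?_
    positivity
  · have h1 : F.coeff j = 0 := by
      apply Polynomial.coeff_eq_zero_of_natDegree_lt
      rw [Finset.mem_range] at hj
      omega
    rw [h1, map_zero, abs_zero]
    exact mul_nonneg (by positivity) (hpos _)

/-- the coefficients of a monic factor -/
lemma factor_le {P B : Polynomial ℤ} (hP : P.Monic) (hB : B.Monic) (hd : B ∣ P) {M : ℝ} (hM : 0 ≤ M)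
    (hc : ∀ j, |((P.coeff j : ℤ) : ℝ)| ≤ M) (j : ℕ) :
    |((B.coeff j : ℤ) : ℝ)| ≤ (M + 1) ^ P.natDegree * 2 ^ P.natDegree := by
  set f : ℚ →+* ℂ := algebraMap ℚ ℂ
  set g : ℤ →+* ℚ := Int.castRingHom ℚ
  have hfg : f.comp g = Int.castRingHom ℂ := RingHom.ext_int _ _
  have hBm : (B.map g).Monic := hB.map g
  have hmap : ∀ Q : Polynomial ℤ, (Q.map g).map f = Q.map (Int.castRingHom ℂ) := fun Q => by
    rw [Polynomial.map_map, hfg]
  have hPC : (P.map (Int.castRingHom ℂ)).Monic := hP.map _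
  have hroots : ∀ z ∈ ((B.map g).map f).roots, ‖z‖ ≤ M + 1 := by
    intro z hz
    rw [hmap] at hz
    have hz1 : (B.map (Int.castRingHom ℂ)).IsRoot z := Polynomial.isRoot_of_mem_roots hz
    have hz2 : (P.map (Int.castRingHom ℂ)).IsRoot z :=
      hz1.dvd (Polynomial.map_dvd _ hd)
    have h3 := Polynomial.IsRoot.norm_lt_cauchyBound hPC.ne_zero hz2
    have h4 : ((P.map (Int.castRingHom ℂ)).cauchyBound : ℝ) ≤ M + 1 := by
      have h5 : (P.map (Int.castRingHom ℂ)).cauchyBound ≤ M.toNNReal + 1 := by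
        unfold Polynomial.cauchyBound
        rw [hPC.leadingCoeff, nnnorm_one, div_one]
        refine add_le_add ?_ le_rfl
        refine Finset.sup_le fun i _ => ?_
        rw [← NNReal.coe_le_coe, coe_nnnorm, Real.coe_toNNReal M hM, Polynomial.coeff_map]
        have h6 := hc i
        simpa using h6
      have h6 : ((P.map (Int.castRingHom ℂ)).cauchyBound : ℝ) ≤ ((M.toNNReal + 1 : NNReal) : ℝ) :=
        NNReal.coe_le_coe.2 h5
      rw [NNReal.coe_add, Real.coe_toNNReal M hM, NNReal.coe_one] at h6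
      exact h6
    have h7 : ‖z‖ ≤ ((P.map (Int.castRingHom ℂ)).cauchyBound : ℝ) := NNReal.coe_le_coe.2 h3.le
    exact h7.trans h4
  have hdeg : (B.map g).natDegree ≤ P.natDegree := by
    rw [hB.natDegree_map]
    exact Polynomial.natDegree_le_of_dvd hd hP.ne_zero
  have h := Polynomial.coeff_bdd_of_roots_le f hBm (IsAlgClosed.splits _) hdeg hroots j
  rw [hmap, Polynomial.coeff_map] at h
  have h7 : ‖(Int.castRingHom ℂ) (B.coeff j)‖ = |((B.coeff j : ℤ) : ℝ)| := by simp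
  rw [h7, max_eq_left (by linarith)] at h
  refine h.trans (mul_le_mul_of_nonneg_left ?_ (by positivity))
  have h8 : (P.natDegree.choose (P.natDegree / 2)) ≤ 2 ^ P.natDegree := Nat.choose_le_two_pow _ _
  exact_mod_cast h8

end Size_aux

theorem stmtSize : StmtSize := by
  intro σ _ F hF
  set d : ℕ := ∑ j ∈ Finset.range (F.natDegree + 1), (F.coeff j).totalDegree with hd
  refine ⟨d * F.natDegree, fun v => ?_⟩
  obtain ⟨C, hC1, hC⟩ := Size_aux.coeff_le F v
  refine ⟨((C + 1) * 2) ^ F.natDegree, fun T B hB hdvd j => ?_⟩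
  set P : Polynomial ℤ := F.map (MvPolynomial.eval fun i => T * v i) with hP
  have hPm : P.Monic := hF.map _
  have hPd : P.natDegree = F.natDegree := hF.natDegree_map _
  have hT0 := abs_nonneg T
  have hX : (1 : ℝ) ≤ (|(T : ℝ)| + 1) ^ d := one_le_pow₀ (by have := abs_nonneg (T : ℝ); linarith)
  have h1 := Size_aux.factor_le hPm hB hdvd (M := (C : ℝ) * (|(T : ℝ)| + 1) ^ d) (by positivity)
    (fun j => by
      have h := hC T j
      have h2 : ((|P.coeff j| : ℤ) : ℝ) ≤ (((C : ℤ) * (|T| + 1) ^ d : ℤ) : ℝ) := by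
        exact_mod_cast h
      push_cast at h2
      exact h2) j
  rw [hPd] at h1
  have h2 : (C : ℝ) * (|(T : ℝ)| + 1) ^ d + 1 ≤ ((C : ℝ) + 1) * (|(T : ℝ)| + 1) ^ d := by
    rw [add_mul, one_mul]
    linarith
  have h3 : |((B.coeff j : ℤ) : ℝ)| ≤ (((C : ℝ) + 1) * 2) ^ F.natDegree *
      (|(T : ℝ)| + 1) ^ (d * F.natDegree) := by
    refine h1.trans ?_
    calc ((C : ℝ) * (|(T : ℝ)| + 1) ^ d + 1) ^ F.natDegree * 2 ^ F.natDegree ≤
          (((C : ℝ) + 1) * (|(T : ℝ)| + 1) ^ d) ^ F.natDegree * 2 ^ F.natDegree :=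
          mul_le_mul_of_nonneg_right (pow_le_pow_left₀ (by positivity) h2 _) (by positivity)
      _ = _ := by rw [mul_pow, mul_pow, ← pow_mul]; ring
  have h4 : ((|B.coeff j| : ℤ) : ℝ) ≤
      ((((((C + 1) * 2) ^ F.natDegree : ℕ) : ℤ) * (|T| + 1) ^ (d * F.natDegree) : ℤ) : ℝ) := by
    push_cast
    exact h3
  exact_mod_cast h4

end Pool.Agent.Lib.MP_16285c_agN.Hit
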