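import Pool.Agent.Lib.MP_16285c_agN.Hit.Spec

/-!
# Hilbert's irreducibility theorem: the splitting prime (`StmtSplit`)
-/

set_option autoImplicit false

noncomputable section

namespace Pool.Agent.Lib.MP_16285c_agN.Hit

open Polynomial

namespace Split_aux

/-- Clearing denominators. -/
theorem clear (u : Polynomial ℚ) : ∃ (d : ℤ) (U : Polynomial ℤ), d ≠ 0 ∧
    U.map (Int.castRingHom ℚ) = C (d : ℚ) * u := by
  obtain ⟨b, hb, h⟩ := IsLocalization.integerNormalization_spec (nonZeroDivisors ℤ) u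
  refine ⟨b, IsLocalization.integerNormalization (nonZeroDivisors ℤ) u,
    nonZeroDivisors.ne_zero hb, ?_⟩
  · have h2 : (IsLocalization.integerNormalization (nonZeroDivisors ℤ) u).map
        (Int.castRingHom ℚ) = b • u := h
    rw [h2]
    ext n
    simp

/-- Bezout for a polynomial and its derivative. -/
theorem bez (g : Polynomial ℤ) (hg : (g.map (Int.castRingHom ℚ)).Separable) :
    ∃ (δ : ℤ) (U V : Polynomial ℤ), δ ≠ 0 ∧ U * g + V * derivative g = C δ := by
  obtain ⟨u, v, huv⟩ := hg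
  obtain ⟨d, U, hd, hU⟩ := clear u
  obtain ⟨e, V, he, hV⟩ := clear v
  refine ⟨d * e, C e * U, C d * V, mul_ne_zero hd he, ?_⟩
  apply Polynomial.map_injective (Int.castRingHom ℚ) (RingHom.injective_int _)
  rw [Polynomial.map_add, Polynomial.map_mul, Polynomial.map_mul, Polynomial.map_mul,
    Polynomial.map_mul, Polynomial.map_C, Polynomial.map_C, Polynomial.map_C, hU, hV,
    ← Polynomial.derivative_map]
  have e1 : Int.castRingHom ℚ e = (e : ℚ) := rfl
  have e2 : Int.castRingHom ℚ d = (d : ℚ) := rfl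
  have e3 : Int.castRingHom ℚ (d * e) = (d : ℚ) * (e : ℚ) := by
    rw [map_mul, e1, e2]
  rw [e1, e2, e3]
  calc C (e : ℚ) * (C (d : ℚ) * u) * g.map (Int.castRingHom ℚ) +
        C (d : ℚ) * (C (e : ℚ) * v) * derivative (g.map (Int.castRingHom ℚ))
      = C (d : ℚ) * C (e : ℚ) * (u * g.map (Int.castRingHom ℚ) +
        v * derivative (g.map (Int.castRingHom ℚ))) := by ring
    _ = C ((d : ℚ) * (e : ℚ)) := by rw [huv, mul_one, C_mul]

/-- A nonconstant integral polynomial has a value divisible by a prime not dividing `N`. -/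
theorem schur (g : Polynomial ℤ) (hg : 0 < g.natDegree) (N : ℤ) (hN : N ≠ 0) :
    ∃ (l : ℕ) (j : ℤ), l.Prime ∧ ¬ (l : ℤ) ∣ N ∧ (l : ℤ) ∣ g.eval j := by
  have hg0 : g ≠ 0 := by
    rintro rfl
    simp at hg
  obtain ⟨j0, hj0⟩ : ∃ j : ℤ, g.eval j ≠ 0 := by
    by_contra h
    push Not at h
    exact hg0 (Polynomial.funext (by simpa using h))
  set c := g.eval j0 with hc
  have key : ∀ t : ℤ, ∃ h : ℤ, g.eval (j0 + N * c * t) = c * (1 + N * h) := by
    intro t
    obtain ⟨k, hk⟩ := Polynomial.sub_dvd_eval_sub (j0 + N * c * t) j0 g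
    refine ⟨t * k, ?_⟩
    have h1 : g.eval (j0 + N * c * t) = c + (j0 + N * c * t - j0) * k := by
      rw [← hk]
      ring
    rw [h1]
    ring
  have hex : ∃ t : ℤ, g.eval (j0 + N * c * t) ≠ c ∧ g.eval (j0 + N * c * t) ≠ -c := by
    by_contra hcon
    push Not at hcon
    have hz : (g - C c) * (g + C c) = 0 := by
      apply Polynomial.eq_zero_of_infinite_isRoot
      have hinj : Function.Injective fun t : ℤ => j0 + N * c * t := by
        intro a b hab
        have h2 : N * c * a = N * c * b := by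
          have := hab
          simp only at this
          linarith
        exact mul_left_cancel₀ (mul_ne_zero hN hj0) h2
      refine (Set.infinite_range_of_injective hinj).mono ?_
      rintro _ ⟨t, rfl⟩
      simp only [Set.mem_ofPred_eq, IsRoot.def, eval_mul, eval_sub, eval_add, eval_C]
      by_cases h : g.eval (j0 + N * c * t) = c
      · rw [h]
        ring
      · rw [hcon t h]
        ring
    rcases mul_eq_zero.1 hz with h | h
    · have h3 : g = C c := sub_eq_zero.1 h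
      rw [h3] at hg
      simp at hg
    · have h3 : g = C (-c) := by
        rw [C_neg]
        exact eq_neg_of_add_eq_zero_left h
      rw [h3, natDegree_C] at hg
      exact absurd hg (lt_irrefl 0)
  obtain ⟨t, ht1, ht2⟩ := hex
  obtain ⟨h, hh⟩ := key t
  have hne : (1 + N * h).natAbs ≠ 1 := by
    intro h1
    rcases Int.natAbs_eq_iff.1 h1 with h2 | h2
    · rw [h2] at hh
      exact ht1 (by simpa using hh)
    · rw [h2] at hh
      exact ht2 (by simpa using hh)
  obtain ⟨l, hl, hdvd⟩ := Nat.exists_prime_and_dvd hne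
  have hdvd' : (l : ℤ) ∣ 1 + N * h := Int.natCast_dvd.2 hdvd
  refine ⟨l, j0 + N * c * t, hl, ?_, ?_⟩
  · intro hlN
    have h1 : (l : ℤ) ∣ 1 := by
      have := (Int.dvd_add_left (dvd_mul_of_dvd_left hlN h)).1 hdvd'
      exact this
    have h2 : (l : ℕ) ∣ 1 := by exact_mod_cast h1
    exact hl.one_lt.ne' (Nat.dvd_one.1 h2)
  · rw [hh]
    exact dvd_mul_of_dvd_right hdvd' c

/-- An integral primitive element. -/
theorem prim (E : Type) [Field E] [Algebra ℚ E] [FiniteDimensional ℚ E] :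
    ∃ θ : E, IsIntegral ℤ θ ∧ IntermediateField.adjoin ℚ {θ} = ⊤ := by
  obtain ⟨α, hα⟩ := Field.exists_primitive_element ℚ E
  have halg : IsAlgebraic ℤ α :=
    (IsFractionRing.isAlgebraic_iff ℤ ℚ E).2 (Algebra.IsAlgebraic.isAlgebraic α)
  obtain ⟨y, hy, hint⟩ := halg.exists_integral_multiple
  refine ⟨y • α, hint, ?_⟩
  rw [eq_top_iff, ← hα, IntermediateField.adjoin_simple_le_iff]
  have h1 : y • α ∈ IntermediateField.adjoin ℚ {y • α} :=
    IntermediateField.mem_adjoin_simple_self ℚ _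
  have h2 : α = ((y : ℚ)⁻¹) • (y • α) := by
    have hy' : (y : ℚ) ≠ 0 := by exact_mod_cast hy
    rw [← Int.cast_smul_eq_zsmul ℚ y α, smul_smul, inv_mul_cancel₀ hy', one_smul]
  have h3 : ((y : ℚ)⁻¹) • (y • α) ∈ IntermediateField.adjoin ℚ {y • α} :=
    IntermediateField.smul_mem _ h1
  rw [← h2] at h3
  exact h3

/-- A suitable prime for which `f` splits over `ℚ_l`. -/
theorem splitsQp (f : Polynomial ℤ) (δ₂ : ℤ) (hδ : δ₂ ≠ 0) :
    ∃ (l : ℕ) (_ : Fact l.Prime), ¬ (l : ℤ) ∣ δ₂ ∧ (f.map (Int.castRingHom ℚ_[l])).Splits := by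
  set F := f.map (Int.castRingHom ℚ) with hF
  obtain ⟨θ, hint, htop⟩ := prim F.SplittingField
  have hintQ : IsIntegral ℚ θ := hint.tower_top
  have hmap : (minpoly ℤ θ).map (Int.castRingHom ℚ) = minpoly ℚ θ :=
    (minpoly.isIntegrallyClosed_eq_field_fractions' ℚ hint).symm
  have hsep : ((minpoly ℤ θ).map (Int.castRingHom ℚ)).Separable := by
    rw [hmap]
    exact (minpoly.irreducible hintQ).separable
  obtain ⟨δ₁, U, V, hδ₁, hUV⟩ := bez (minpoly ℤ θ) hsep
  obtain ⟨l, j, hl, hlN, hlj⟩ := schur (minpoly ℤ θ) (minpoly.natDegree_pos hint) (δ₁ * δ₂)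
    (mul_ne_zero hδ₁ hδ)
  have hfact : Fact l.Prime := ⟨hl⟩
  refine ⟨l, hfact, fun h => hlN (dvd_mul_of_dvd_right h δ₁), ?_⟩
  -- the value at `j`
  have hev : ∀ p : Polynomial ℤ, aeval ((j : ℤ) : ℤ_[l]) p = ((p.eval j : ℤ) : ℤ_[l]) := by
    intro p
    have := Polynomial.aeval_algebraMap_apply ℤ_[l] j p
    simpa using this
  have hg1 : ‖aeval ((j : ℤ) : ℤ_[l]) (minpoly ℤ θ)‖ < 1 := by
    rw [hev, PadicInt.norm_int_lt_one_iff_dvd]
    exact hlj
  have hδn : ‖((δ₁ : ℤ) : ℤ_[l])‖ = 1 := by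
    refine le_antisymm (PadicInt.norm_le_one _) (not_lt.1 fun h => ?_)
    rw [PadicInt.norm_int_lt_one_iff_dvd] at h
    exact hlN (dvd_mul_of_dvd_left h δ₂)
  have hd1 : ‖aeval ((j : ℤ) : ℤ_[l]) (derivative (minpoly ℤ θ))‖ = 1 := by
    refine le_antisymm (PadicInt.norm_le_one _) (not_lt.1 fun h => ?_)
    have h1 : aeval ((j : ℤ) : ℤ_[l]) (U * minpoly ℤ θ + V * derivative (minpoly ℤ θ)) =
        ((δ₁ : ℤ) : ℤ_[l]) := by
      rw [hUV]
      simp
    rw [map_add, map_mul, map_mul] at h1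
    have h2 : ‖((δ₁ : ℤ) : ℤ_[l])‖ < 1 := by
      rw [← h1]
      refine lt_of_le_of_lt (PadicInt.nonarchimedean _ _) (max_lt ?_ ?_)
      · rw [norm_mul]
        exact lt_of_le_of_lt (mul_le_of_le_one_left (norm_nonneg _) (PadicInt.norm_le_one _)) hg1
      · rw [norm_mul]
        exact lt_of_le_of_lt (mul_le_of_le_one_left (norm_nonneg _) (PadicInt.norm_le_one _)) h
    rw [hδn] at h2
    exact lt_irrefl _ h2
  obtain ⟨b, hb, -⟩ := hensels_lemma (p := l) (F := minpoly ℤ θ) (a := ((j : ℤ) : ℤ_[l]))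
    (by rw [hd1, one_pow]; exact hg1)
  -- the embedding of the splitting field
  have hb' : aeval (b : ℚ_[l]) (minpoly ℚ θ) = 0 := by
    rw [← hmap]
    have h1 : aeval (b : ℚ_[l]) ((minpoly ℤ θ).map (Int.castRingHom ℚ)) =
        aeval (b : ℚ_[l]) (minpoly ℤ θ) := Polynomial.aeval_map_algebraMap ℚ (b : ℚ_[l]) _
    rw [h1]
    have h2 : aeval (algebraMap ℤ_[l] ℚ_[l] b) (minpoly ℤ θ) =
        algebraMap ℤ_[l] ℚ_[l] (aeval b (minpoly ℤ θ)) :=
      Polynomial.aeval_algebraMap_apply ℚ_[l] b _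
    rw [hb, map_zero] at h2
    exact h2
  have hroot : (b : ℚ_[l]) ∈ (minpoly ℚ θ).aroots ℚ_[l] := by
    rw [mem_aroots]
    exact ⟨minpoly.ne_zero hintQ, hb'⟩
  let φ₁ : IntermediateField.adjoin ℚ {θ} →ₐ[ℚ] ℚ_[l] :=
    (IntermediateField.algHomAdjoinIntegralEquiv ℚ hintQ).symm ⟨_, hroot⟩
  let φ : F.SplittingField →ₐ[ℚ] ℚ_[l] :=
    (φ₁.comp (IntermediateField.equivOfEq htop.symm).toAlgHom).comp
      IntermediateField.topEquiv.symm.toAlgHom
  have heq : ((F.map (algebraMap ℚ F.SplittingField)).map φ.toRingHom) =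
      f.map (Int.castRingHom ℚ_[l]) := by
    rw [Polynomial.map_map]
    have hgen : ∀ ρ : ℚ →+* ℚ_[l], F.map ρ = f.map (Int.castRingHom ℚ_[l]) := by
      intro ρ
      rw [hF, Polynomial.map_map]
      congr 1
      exact RingHom.ext_int _ _
    exact hgen _
  rw [← heq]
  exact (SplittingField.splits F).map φ.toRingHom

/-- A product of linear factors over `ℤ_l`. -/
theorem splitsZp (l : ℕ) [Fact l.Prime] (f : Polynomial ℤ) (hf : f.Monic)
    (h : (f.map (Int.castRingHom ℚ_[l])).Splits) :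
    ∃ a : Fin f.natDegree → ℤ_[l], f.map (Int.castRingHom ℤ_[l]) = ∏ i, (X - C (a i)) := by
  set P := f.map (Int.castRingHom ℤ_[l]) with hP
  have hPm : P.Monic := hf.map _
  have hmm : P.map (algebraMap ℤ_[l] ℚ_[l]) = f.map (Int.castRingHom ℚ_[l]) := by
    rw [hP, Polynomial.map_map]
    exact congrArg (fun ρ => f.map ρ) (RingHom.ext_int _ _)
  have hinj : Function.Injective (algebraMap ℤ_[l] ℚ_[l]) := IsFractionRing.injective _ _
  have hs : P.Splits := by
    refine Splits.of_splits_map_of_injective hinj (by rw [hmm]; exact h) ?_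
    intro r hr
    have hr0 : IsRoot (P.map (algebraMap ℤ_[l] ℚ_[l])) r := isRoot_of_mem_roots hr
    have hri : IsIntegral ℤ_[l] r := by
      refine ⟨P, hPm, ?_⟩
      rw [← eval_map]
      exact hr0
    obtain ⟨y, hy⟩ := IsIntegrallyClosed.isIntegral_iff.1 hri
    exact ⟨y, hy⟩
  have hprod := hs.eq_prod_roots_of_monic hPm
  have hcard : P.roots.toList.length = f.natDegree := by
    rw [Multiset.length_toList, ← hs.natDegree_eq_card_roots, hP, hf.natDegree_map]
  refine ⟨fun i => P.roots.toList[(i : ℕ)]'(by rw [hcard]; exact i.2), ?_⟩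
  have h1 : (P.roots.map fun a => X - C a).prod =
      (P.roots.toList.map fun a => (X - C a : Polynomial ℤ_[l])).prod := by
    conv_lhs => rw [← Multiset.coe_toList P.roots]
    rw [Multiset.map_coe, Multiset.prod_coe]
  refine hprod.trans (h1.trans ?_)
  rw [← Fin.prod_univ_fun_getElem]
  exact Fintype.prod_equiv (finCongr hcard) _ _ (fun i => rfl)

end Split_aux

open Split_aux in
theorem stmtSplit : StmtSplit := by
  intro f hf hsep
  obtain ⟨δ, U, V, hδ, hUV⟩ := bez f hsep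
  obtain ⟨l, hl, hlδ, hsp⟩ := splitsQp f δ hδ
  obtain ⟨a, ha⟩ := splitsZp l f hf hsp
  refine ⟨l, hl, a, ha, ?_⟩
  intro i j hij
  set P := f.map (Int.castRingHom ℤ_[l]) with hP
  have hfac : ∃ q : Polynomial ℤ_[l], P = (X - C (a i)) * ((X - C (a j)) * q) := by
    refine ⟨∏ k ∈ (Finset.univ.erase i).erase j, (X - C (a k)), ?_⟩
    rw [ha, Finset.mul_prod_erase (Finset.univ.erase i) (fun k => X - C (a k))
      (Finset.mem_erase.2 ⟨hij.symm, Finset.mem_univ j⟩),
      Finset.mul_prod_erase Finset.univ (fun k => X - C (a k)) (Finset.mem_univ i)]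
  obtain ⟨q, hq⟩ := hfac
  have hder : (derivative P).eval (a i) = (a i - a j) * q.eval (a i) := by
    rw [hq, derivative_mul, eval_add, eval_mul, eval_mul, eval_mul]
    simp
  have hPa : P.eval (a i) = 0 := by
    rw [hq]
    simp
  have hbz : (U.map (Int.castRingHom ℤ_[l])).eval (a i) * P.eval (a i) +
      (V.map (Int.castRingHom ℤ_[l])).eval (a i) * (derivative P).eval (a i) =
      ((δ : ℤ) : ℤ_[l]) := by
    have h1 := congrArg (fun p : Polynomial ℤ => (p.map (Int.castRingHom ℤ_[l])).eval (a i)) hUV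
    have h2 : ((C δ : Polynomial ℤ).map (Int.castRingHom ℤ_[l])).eval (a i) =
        ((δ : ℤ) : ℤ_[l]) := by
      rw [Polynomial.map_C, eval_C]
      rfl
    rw [← h2, ← h1]
    simp only [Polynomial.map_add, Polynomial.map_mul, eval_add, eval_mul, ← derivative_map, hP]
  have hunit : IsUnit ((δ : ℤ) : ℤ_[l]) := by
    rw [PadicInt.isUnit_iff]
    refine le_antisymm (PadicInt.norm_le_one _) (not_lt.1 fun h => ?_)
    rw [PadicInt.norm_int_lt_one_iff_dvd] at h
    exact hlδ h
  rw [hPa, mul_zero, zero_add, hder] at hbz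
  rw [← hbz] at hunit
  exact isUnit_of_mul_isUnit_left (isUnit_of_mul_isUnit_right hunit)

end Pool.Agent.Lib.MP_16285c_agN.Hit
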