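import Pool.Agent.Lib.MP_16285c_agN.Hit.Hensel
import Pool.Agent.Lib.MP_16285c_agN.Hit.Split
import Pool.Agent.Lib.MP_16285c_agN.Hit.Eval
import Pool.Agent.Lib.MP_16285c_agN.Hit.Key1
import Pool.Agent.Lib.MP_16285c_agN.Hit.Key2
import Pool.Agent.Lib.MP_16285c_agN.Hit.Count
import Pool.Agent.Lib.MP_16285c_agN.Hit.Size
import Pool.Agent.Lib.MP_16285c_agN.Hit.Gauss
import Pool.Agent.Lib.MP_16285c_agN.Hit.Line
import Pool.Agent.Lib.MP_16285c_agN.Hit.Irrat
import Pool.Agent.Lib.MP_16285c_agN.Hit.Dir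
import Pool.Agent.Lib.MP_16285c_agN.Hit.Sep
import Pool.Agent.Lib.MP_16285c_agN.Hit.HITZ
import Pool.Agent.Lib.MP_16285c_agN.Hit.Q0
import Pool.Agent.Lib.MP_16285c_agN.Hit.Prim
import Pool.Agent.Lib.MP_16285c_agN.Hit.Down
import Pool.Agent.Lib.MP_16285c_agN.Hit.Func
import Pool.Agent.Lib.MP_16285c_agN.Hit.Fin
import Pool.Agent.Lib.MP_16285c_agN.Hit.FG
import Pool.Agent.Lib.MP_16285c_agN.Hit.HITK

/-!
# Hilbert's irreducibility theorem for finitely generated fields of characteristic 0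
-/

set_option autoImplicit false

namespace Pool.Agent.Lib.MP_16285c_agN.Hit

/-- Hilbert's irreducibility theorem over `ℤ`. -/
theorem hitZ : StmtHITZ :=
  stmtHITZ (stmtSep stmtHensel stmtSplit stmtSize stmtIrrat stmtDir
    (stmtLine stmtEval (stmtCount stmtKey1 stmtKey2) stmtGauss))

/-- Hilbert's irreducibility theorem over finitely generated fields of characteristic 0. -/
theorem hitK : StmtHITK :=
  stmtHITK (stmtQ0 hitZ) (stmtFin stmtPrim stmtDown stmtFunc) stmtFG

/-- The form with congruences. -/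
theorem hitC : StmtHITC := stmtHITC hitK

/-- The form with irreducibility over the field of rational functions. -/
theorem hit : ∀ (K : Type) [Field K] [CharZero K],
    (∃ S : Finset K, Subfield.closure (S : Set K) = ⊤) →
    ∀ (n : ℕ) (F : Polynomial (MvPolynomial (Fin n) K)) (G : MvPolynomial (Fin n) K), F.Monic →
    Irreducible (F.map (algebraMap (MvPolynomial (Fin n) K) (FractionRing (MvPolynomial (Fin n) K)))) →
    G ≠ 0 → ∃ x : Fin n → ℤ, Irreducible (F.map (MvPolynomial.eval fun i => (x i : K))) ∧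
      MvPolynomial.eval (fun i => (x i : K)) G ≠ 0 := by
  intro K _ _ hS n F G hF hI hG
  obtain ⟨x, -, h1, h2⟩ := hitC K hS (Fin n) F G 1 0 hF hI hG one_ne_zero
  exact ⟨x, h1, h2⟩

end Pool.Agent.Lib.MP_16285c_agN.Hit
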