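import Pool.Agent.Lib.MP_16285c_agN.Hit.Spec

/-!
# Directions: values of polynomials over `ℤ_l` at integral points
-/

set_option autoImplicit false

noncomputable section

namespace Pool.Agent.Lib.MP_16285c_agN.Hit

namespace Dir_aux

variable {l : ℕ} [Fact l.Prime] {σ : Type}

/-- Application of an additive map to the coefficients. -/
def app (f : ℤ_[l] →+ ℚ) (c : MvPolynomial σ ℤ_[l]) : MvPolynomial σ ℚ :=
  ∑ d ∈ c.support, MvPolynomial.monomial d (f (MvPolynomial.coeff d c))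

theorem coeff_app (f : ℤ_[l] →+ ℚ) (c : MvPolynomial σ ℤ_[l]) (d : σ →₀ ℕ) :
    MvPolynomial.coeff d (app f c) = f (MvPolynomial.coeff d c) := by
  classical
  rw [app, MvPolynomial.coeff_sum]
  simp only [MvPolynomial.coeff_monomial]
  rw [Finset.sum_ite_eq']
  split_ifs with h
  · rfl
  · rw [MvPolynomial.notMem_support_iff.1 h, map_zero]

theorem eval_app (f : ℤ_[l] →+ ℚ) (c : MvPolynomial σ ℤ_[l]) (v : σ → ℤ) :
    MvPolynomial.eval (fun j => (v j : ℚ)) (app f c) =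
      f (MvPolynomial.eval (fun j => ((v j : ℤ) : ℤ_[l])) c) := by
  rw [app, map_sum, MvPolynomial.eval_eq, map_sum]
  refine Finset.sum_congr rfl fun d _ => ?_
  rw [MvPolynomial.eval_monomial]
  have h1 : (∏ i ∈ d.support, (((v i : ℤ) : ℤ_[l])) ^ d i) =
      ((∏ i ∈ d.support, (v i) ^ d i : ℤ) : ℤ_[l]) := by
    push_cast
    rfl
  have h2 : (d.prod fun n e => (v n : ℚ) ^ e) = ((∏ i ∈ d.support, (v i) ^ d i : ℤ) : ℚ) := by
    push_cast
    rfl
  rw [h1, h2, mul_comm (MvPolynomial.coeff d c), mul_comm (f _), ← zsmul_eq_mul, ← zsmul_eq_mul,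
    map_zsmul]

/-- The additive map of `ℤ_l` given by a linear form on `ℚ_l`. -/
def ad (φ : Module.Dual ℚ ℚ_[l]) : ℤ_[l] →+ ℚ :=
  φ.toAddMonoidHom.comp (PadicInt.Coe.ringHom (p := l)).toAddMonoidHom

theorem ad_apply (φ : Module.Dual ℚ ℚ_[l]) (a : ℤ_[l]) : ad φ a = φ (a : ℚ_[l]) := rfl

theorem part1 (c : MvPolynomial σ ℤ_[l]) : ∃ P : MvPolynomial σ ℚ, P ≠ 0 ∧
    ∀ v : σ → ℤ, MvPolynomial.eval (fun j => (v j : ℚ)) P ≠ 0 →
      (c ≠ 0 → MvPolynomial.eval (fun j => ((v j : ℤ) : ℤ_[l])) c ≠ 0) := by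
  by_cases hc : c = 0
  · exact ⟨1, one_ne_zero, fun v _ h => absurd hc h⟩
  · obtain ⟨d, hd⟩ := MvPolynomial.ne_zero_iff.1 hc
    have hd' : ((MvPolynomial.coeff d c : ℤ_[l]) : ℚ_[l]) ≠ 0 := by
      intro h
      exact hd (PadicInt.coe_eq_zero.1 h)
    have h0 : ∃ φ : Module.Dual ℚ ℚ_[l], φ ((MvPolynomial.coeff d c : ℤ_[l]) : ℚ_[l]) ≠ 0 := by
      by_contra h
      push Not at h
      exact hd' ((Module.forall_dual_apply_eq_zero_iff ℚ _).1 h)
    obtain ⟨φ, hφ⟩ := h0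
    refine ⟨app (ad φ) c, ?_, ?_⟩
    · intro h
      have := coeff_app (ad φ) c d
      rw [h, MvPolynomial.coeff_zero, ad_apply] at this
      exact hφ this.symm
    · intro v hv _ h
      rw [eval_app, h, map_zero] at hv
      exact hv rfl

theorem part2 (c : MvPolynomial σ ℤ_[l]) : ∃ P : MvPolynomial σ ℚ, P ≠ 0 ∧
    ∀ v : σ → ℤ, MvPolynomial.eval (fun j => (v j : ℚ)) P ≠ 0 →
      (¬ RatP c → ∀ q : ℚ,
        ((MvPolynomial.eval (fun j => ((v j : ℤ) : ℤ_[l])) c : ℤ_[l]) : ℚ_[l]) ≠ (q : ℚ_[l])) := by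
  by_cases hc : RatP c
  · exact ⟨1, one_ne_zero, fun v _ h => absurd hc h⟩
  · have hc2 := hc
    rw [RatP] at hc2
    push Not at hc2
    obtain ⟨d, hd⟩ := hc2
    have hmem : ((MvPolynomial.coeff d c : ℤ_[l]) : ℚ_[l]) ∉ Submodule.span ℚ {(1 : ℚ_[l])} := by
      intro h
      obtain ⟨q, hq⟩ := Submodule.mem_span_singleton.1 h
      apply hd q
      rw [← hq, Algebra.smul_def, mul_one]
      rfl
    obtain ⟨φ, hφ, hφ2⟩ := Submodule.exists_dual_map_eq_bot_of_notMem hmem inferInstance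
    have hφ1 : φ 1 = 0 := by
      have : φ 1 ∈ (Submodule.span ℚ {(1 : ℚ_[l])}).map φ :=
        ⟨1, Submodule.mem_span_singleton_self _, rfl⟩
      rw [hφ2] at this
      exact (Submodule.mem_bot ℚ).1 this
    refine ⟨app (ad φ) c, ?_, ?_⟩
    · intro h
      have := coeff_app (ad φ) c d
      rw [h, MvPolynomial.coeff_zero, ad_apply] at this
      exact hφ this.symm
    · intro v hv _ q h
      rw [eval_app, ad_apply, h] at hv
      apply hv
      have : (q : ℚ_[l]) = q • (1 : ℚ_[l]) := by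
        rw [Algebra.smul_def, mul_one]
        rfl
      rw [this, map_smul, hφ1, smul_zero]

theorem both (c : MvPolynomial σ ℤ_[l]) : ∃ P : MvPolynomial σ ℚ, P ≠ 0 ∧
    ∀ v : σ → ℤ, MvPolynomial.eval (fun j => (v j : ℚ)) P ≠ 0 →
      (c ≠ 0 → MvPolynomial.eval (fun j => ((v j : ℤ) : ℤ_[l])) c ≠ 0) ∧
      (¬ RatP c → ∀ q : ℚ,
        ((MvPolynomial.eval (fun j => ((v j : ℤ) : ℤ_[l])) c : ℤ_[l]) : ℚ_[l]) ≠ (q : ℚ_[l])) := by
  obtain ⟨P1, h1, h1'⟩ := part1 c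
  obtain ⟨P2, h2, h2'⟩ := part2 c
  refine ⟨P1 * P2, mul_ne_zero h1 h2, fun v hv => ?_⟩
  rw [map_mul] at hv
  exact ⟨h1' v (left_ne_zero_of_mul hv), h2' v (right_ne_zero_of_mul hv)⟩

theorem exists_int (P : MvPolynomial σ ℚ) (hP : P ≠ 0) :
    ∃ v : σ → ℤ, MvPolynomial.eval (fun j => (v j : ℚ)) P ≠ 0 := by
  by_contra h
  push Not at h
  apply hP
  apply MvPolynomial.funext_set (fun _ => Set.range ((↑) : ℤ → ℚ))
    (fun _ => Set.infinite_range_of_injective Int.cast_injective)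
  intro x hx
  have hx' : ∀ i, ∃ n : ℤ, (n : ℚ) = x i := fun i => hx i (Set.mem_univ i)
  choose v hv using hx'
  have hv' : x = fun j => (v j : ℚ) := funext fun j => (hv j).symm
  rw [hv', h v, map_zero]

end Dir_aux

open Dir_aux in
theorem stmtDir : StmtDir := by
  intro l _ σ ι _ _ c G hG
  classical
  have : Fintype ι := Fintype.ofFinite ι
  choose P hP hP' using fun i => both (c i)
  have hG' : MvPolynomial.map (Int.castRingHom ℚ) G ≠ 0 := by
    intro h
    apply hG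
    apply MvPolynomial.map_injective (Int.castRingHom ℚ) Int.cast_injective
    rw [h, map_zero]
  have hprod : (∏ i, P i) * MvPolynomial.map (Int.castRingHom ℚ) G ≠ 0 :=
    mul_ne_zero (Finset.prod_ne_zero_iff.2 fun i _ => hP i) hG'
  obtain ⟨v, hv⟩ := exists_int _ hprod
  rw [map_mul, map_prod] at hv
  refine ⟨v, ?_, fun i => ?_⟩
  · intro h
    apply right_ne_zero_of_mul hv
    rw [MvPolynomial.eval_map]
    have h3 : MvPolynomial.eval₂ (Int.castRingHom ℚ) (fun j => (v j : ℚ)) G =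
        (Int.castRingHom ℚ) (MvPolynomial.eval v G) := by
      rw [MvPolynomial.eval, MvPolynomial.coe_eval₂Hom, MvPolynomial.eval₂_comp_left]
      rfl
    rw [h3, h, map_zero]
  · exact hP' i v (Finset.prod_ne_zero_iff.1 (left_ne_zero_of_mul hv) i (Finset.mem_univ i))

end Pool.Agent.Lib.MP_16285c_agN.Hit
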