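import Pool.Agent.Lib.MP_16285c_agN.Hit.Spec

/-!
# Hensel's lemma for power series: a product of linear factors lifts
-/

set_option autoImplicit false

noncomputable section

namespace Pool.Agent.Lib.MP_16285c_agN.Hit

open Polynomial

namespace Hensel_aux

variable {R : Type} [CommRing R]

theorem cc_eval (Q : Polynomial (PowerSeries R)) (a : R) :
    PowerSeries.constantCoeff (Q.eval (PowerSeries.C a)) =
      (Q.map PowerSeries.constantCoeff).eval a := by
  rw [eval_map, ← Polynomial.eval₂_at_apply, PowerSeries.constantCoeff_C]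

theorem deriv_unit {D : ℕ} (a : Fin D → R) (ha : ∀ i j, i ≠ j → IsUnit (a i - a j)) (k : Fin D) :
    IsUnit ((derivative (∏ i, (X - C (a i)))).eval (a k)) := by
  classical
  rw [← Finset.mul_prod_erase Finset.univ (fun i => X - C (a i)) (Finset.mem_univ k)]
  rw [derivative_mul, derivative_X_sub_C, one_mul, eval_add, eval_mul, eval_sub, eval_X, eval_C,
    sub_self, zero_mul, add_zero, eval_prod]
  apply Finset.prod_induction _ IsUnit
  · intro x y hx hy
    exact hx.mul hy
  · exact isUnit_one
  · intro i hi
    rw [eval_sub, eval_X, eval_C]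
    exact ha k i (Finset.ne_of_mem_erase hi).symm

theorem root {D : ℕ} (P : Polynomial (PowerSeries R)) (a : Fin D → R) (hP : P.Monic)
    (hm : P.map PowerSeries.constantCoeff = ∏ i, (X - C (a i)))
    (ha : ∀ i j, i ≠ j → IsUnit (a i - a j)) (k : Fin D) :
    ∃ y : PowerSeries R, PowerSeries.constantCoeff y = a k ∧ P.IsRoot y := by
  have h1 : P.eval (PowerSeries.C (a k)) ∈
      (Ideal.span {PowerSeries.X} : Ideal (PowerSeries R)) := by
    rw [Ideal.mem_span_singleton, PowerSeries.X_dvd_iff, cc_eval, hm, eval_prod]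
    apply Finset.prod_eq_zero (Finset.mem_univ k)
    rw [eval_sub, eval_X, eval_C, sub_self]
  have h2 : IsUnit (P.derivative.eval (PowerSeries.C (a k))) := by
    rw [PowerSeries.isUnit_iff_constantCoeff, cc_eval, ← derivative_map, hm]
    exact deriv_unit a ha k
  obtain ⟨y, hy, hy'⟩ := HenselianRing.is_henselian
    (I := (Ideal.span {PowerSeries.X} : Ideal (PowerSeries R))) P hP (PowerSeries.C (a k)) h1
    (h2.map (Ideal.Quotient.mk _))
  refine ⟨y, ?_, hy⟩
  rw [Ideal.mem_span_singleton, PowerSeries.X_dvd_iff, map_sub, PowerSeries.constantCoeff_C,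
    sub_eq_zero] at hy'
  exact hy'

end Hensel_aux

theorem stmtHensel : StmtHensel := by
  intro R _ D P a hP hm ha
  choose y hy hr using Hensel_aux.root P a hP hm ha
  refine ⟨y, hy, ?_⟩
  rcases subsingleton_or_nontrivial R with hR | hR
  · have h : (1 : R) = 0 := Subsingleton.elim _ _
    have h' : (1 : PowerSeries R) = 0 := by
      rw [← map_one (PowerSeries.C (R := R)), h, map_zero]
    have : Subsingleton (PowerSeries R) := subsingleton_of_zero_eq_one h'.symm
    exact Subsingleton.elim _ _
  · have hd : (∏ i, (X - C (y i))) ∣ P := by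
      refine Fintype.prod_dvd_of_coprime (fun i j hij => ?_) fun i => ?_
      · refine isCoprime_X_sub_C_of_isUnit_sub ?_
        rw [PowerSeries.isUnit_iff_constantCoeff, map_sub, hy, hy]
        exact ha i j hij
      · exact dvd_iff_isRoot.2 (hr i)
    have hM : (∏ i, (X - C (y i))).Monic := monic_prod_of_monic _ _ fun i _ => monic_X_sub_C _
    refine (eq_of_monic_of_dvd_of_natDegree_le hM hP hd ?_)
    have e1 : P.natDegree = D := by
      rw [← hP.natDegree_map (PowerSeries.constantCoeff (R := R)), hm,
        natDegree_prod_of_monic _ _ fun i _ => monic_X_sub_C _]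
      simp
    have e2 : (∏ i, (X - C (y i))).natDegree = D := by
      rw [natDegree_prod_of_monic _ _ fun i _ => monic_X_sub_C _]
      simp
    rw [e1, e2]

end Pool.Agent.Lib.MP_16285c_agN.Hit
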